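import Pool.Agent.H68.QS.Df

/-!
ROW Dec (a tower over `k` comes from a tower over the rationals).  PROOF.
`C = CyclotomicField (p ^ (n+1)) k`, `ζ ∈ C` a primitive root of unity of order `p ^ (n+1)`, `Z = adjoin ℚ {ζ} : IntermediateField ℚ C` (cyclotomic over the rationals, so Galois over the rationals, abelian). `φ : L →ₐ[k] C`.
(1) For any `B : IntermediateField ℚ C` which contains the image of `k`: `C = B(ζ)` and `[C : B] = [Z : Z ⊓ B]` (`Z ⊓ B ⊆ Z` Galois; over the base `Z ⊓ B` the fields `Z` and `B` are linearly disjoint: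
 `IntermediateField.LinearDisjoint.of_inf_eq_bot`-type lemma for Galois `Z`, in the file `Mathlib/FieldTheory/LinearDisjoint.lean`; or by `restrictRestrictAlgEquivMapHom_surjective`/`_injective` in
 `Mathlib/FieldTheory/Galois/Basic.lean`), in degrees over the rationals: `[C : ℚ] * [Z ⊓ B : ℚ] = [B : ℚ] * [Z : ℚ]`.
(2) `L' = {x ∈ L | φ x ∈ Z} = Z.comap φ` and `K' = {x ∈ K | φ x ∈ Z}` as `IntermediateField ℚ L`, `IntermediateField ℚ K`; `K' → L'` induced by `K → L`; maps `g, h` the inclusions.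
(3) `L` is generated by `k` and `L'`: let `B = φ(L)`, `B₁ = φ(k L') ⊆ B`. `Z ⊓ B = φ(L')`, `φ(L') ⊆ Z ⊓ B₁ ⊆ Z ⊓ B`, so `Z ⊓ B₁ = Z ⊓ B` and (1) for `B`, `B₁` gives `[B : ℚ] = [B₁ : ℚ]`, so `B₁ = B`. The same for `K` with `K'`.
(4) (1) for `φ(L)` and `φ(K)`: `[L : ℚ] / [L' : ℚ] = [C : ℚ] / [Z : ℚ] = [K : ℚ] / [K' : ℚ]`, so `[L : K] = [L' : K']`. (1) for `φ(k)`: `[K : ℚ] / [K' : ℚ] = [k : ℚ] / [k' : ℚ]`, and so `[K : ℚ] * [k' : ℚ] = [K' : ℚ] * [k : ℚ]`: if
 `p ^ N ∣ [K : ℚ]` then `p ^ N ∣ [K' : ℚ] * 2 ^ r`, so `p ^ N ∣ [K' : ℚ]`.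
(5) `IsR p L'`: `L'` is totally real as a subfield of `L` (`IsTotallyReal.of_algebra`), and it embeds in `Z`, which is isomorphic to `CyclotomicField (p ^ (n+1)) ℚ` (`IsCyclotomicExtension.algEquiv`).
-/

set_option autoImplicit false

open IsDedekindDomain NumberField Pool.Agent.H10 H5SW

namespace H68QS

/-- degrees in a compositum with a Galois extension -/
theorem Dec_inf {F E : Type} [Field F] [Field E] [Algebra F E] [FiniteDimensional F E]
    (Z B : IntermediateField F E) [IsGalois F Z] (h : Z ⊔ B = ⊤) :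
    Module.finrank F E * Module.finrank F ↥(Z ⊓ B) = Module.finrank F B * Module.finrank F Z := by
  set D : IntermediateField F E := Z ⊓ B with hD
  have hDZ : D ≤ Z := inf_le_left
  have hDB : D ≤ B := inf_le_right
  set Z' : IntermediateField D E := IntermediateField.extendScalars hDZ with hZ'
  set B' : IntermediateField D E := IntermediateField.extendScalars hDB with hB'
  have hsup : Z' ⊔ B' = ⊤ := by
    rw [eq_top_iff]
    intro x _
    have h1 : Z ⊔ B ≤ (Z' ⊔ B').restrictScalars F := by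
      apply sup_le
      · intro y hy
        exact (le_sup_left : Z' ≤ Z' ⊔ B') hy
      · intro y hy
        exact (le_sup_right : B' ≤ Z' ⊔ B') hy
    exact h1 (h ▸ IntermediateField.mem_top)
  have hinf : Z' ⊓ B' = ⊥ := by
    rw [eq_bot_iff]
    intro x hx
    rw [IntermediateField.mem_bot]
    exact ⟨⟨x, hx.1, hx.2⟩, rfl⟩
  have e1 : Module.finrank F D * Module.finrank D Z' = Module.finrank F Z := by
    have := Module.finrank_mul_finrank F D Z'
    rw [this]
    rfl
  have e2 : Module.finrank F D * Module.finrank D B' = Module.finrank F B := by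
    have := Module.finrank_mul_finrank F D B'
    rw [this]
    rfl
  have e3 : Module.finrank F D * Module.finrank D E = Module.finrank F E :=
    Module.finrank_mul_finrank F D E
  have hgal : IsGalois D Z' := by
    let _ : Algebra D Z := (IntermediateField.inclusion hDZ).toRingHom.toAlgebra
    have : IsScalarTower F D Z := IsScalarTower.of_algebraMap_eq fun x => rfl
    have : IsGalois D Z := IsGalois.tower_top_of_isGalois F D Z
    let e : Z ≃ₐ[D] Z' :=
      { toFun := fun x => ⟨x.1, x.2⟩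
        invFun := fun x => ⟨x.1, x.2⟩
        left_inv := fun x => rfl
        right_inv := fun x => rfl
        map_mul' := fun x y => rfl
        map_add' := fun x y => rfl
        commutes' := fun x => rfl }
    exact IsGalois.of_algEquiv e
  have hdis : Z'.LinearDisjoint B' := IntermediateField.LinearDisjoint.of_inf_eq_bot hinf
  have e4 := hdis.finrank_sup
  rw [hsup, IntermediateField.finrank_top'] at e4
  rw [← e1, ← e2, ← e3, e4]
  ring

theorem Dec_deg {F M E : Type} [Field F] [Field M] [Field E] [Algebra F E] [Algebra F M]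
    [FiniteDimensional F E] (ψ : M →ₐ[F] E) (Z : IntermediateField F E) [IsGalois F Z]
    (h : Z ⊔ ψ.fieldRange = ⊤) :
    Module.finrank F E * Module.finrank F (Z.comap ψ) = Module.finrank F M * Module.finrank F Z := by
  have h1 := Dec_inf Z ψ.fieldRange h
  have e1 : Module.finrank F ψ.fieldRange = Module.finrank F M :=
    (ψ.equivFieldRange.toLinearEquiv.finrank_eq).symm
  have e2 : (Z.comap ψ).map ψ = Z ⊓ ψ.fieldRange := by
    ext x
    constructor
    · rintro ⟨y, hy, rfl⟩
      exact ⟨hy, ⟨y, rfl⟩⟩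
    · rintro ⟨hx, y, rfl⟩
      exact ⟨y, hx, rfl⟩
  have e3 : Module.finrank F (Z.comap ψ) = Module.finrank F ↥((Z.comap ψ).map ψ) :=
    (IntermediateField.equivMap (Z.comap ψ) ψ).toLinearEquiv.finrank_eq
  rw [e3, e2, h1, e1]

theorem Dec_gen {F M E : Type} [Field F] [Field M] [Field E] [Algebra F E] [Algebra F M]
    [FiniteDimensional F E] (ψ : M →ₐ[F] E) (Z : IntermediateField F E) [IsGalois F Z]
    (S : Set M) (h : Z ⊔ (IntermediateField.adjoin F S).map ψ = ⊤) :
    IntermediateField.adjoin F (S ∪ (Z.comap ψ : Set M)) = ⊤ := by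
  set B := IntermediateField.adjoin F (S ∪ (Z.comap ψ : Set M)) with hB
  have hSB : IntermediateField.adjoin F S ≤ B :=
    IntermediateField.adjoin.mono F _ _ Set.subset_union_left
  have hle : B.map ψ ≤ ψ.fieldRange := by
    rintro x ⟨y, -, rfl⟩
    exact ⟨y, rfl⟩
  have hle2 : (IntermediateField.adjoin F S).map ψ ≤ B.map ψ := by
    rintro x ⟨y, hy, rfl⟩
    exact ⟨y, hSB hy, rfl⟩
  have h1 : Z ⊔ B.map ψ = ⊤ := by
    rw [eq_top_iff, ← h]
    exact sup_le_sup_left hle2 Z
  have h2 : Z ⊔ ψ.fieldRange = ⊤ := by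
    rw [eq_top_iff, ← h1]
    exact sup_le_sup_left hle Z
  have hinf : Z ⊓ B.map ψ = Z ⊓ ψ.fieldRange := by
    apply le_antisymm (inf_le_inf_left Z hle)
    rintro x ⟨hx, y, rfl⟩
    refine ⟨hx, y, ?_, rfl⟩
    exact IntermediateField.subset_adjoin F _ (Or.inr hx)
  have e1 := Dec_inf Z _ h1
  have e2 := Dec_inf Z _ h2
  rw [hinf, e2] at e1
  have hz : 0 < Module.finrank F Z := Module.finrank_pos
  have e3 := Nat.eq_of_mul_eq_mul_right hz e1
  have e4 := IntermediateField.eq_of_le_of_finrank_eq hle e3.symm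
  rw [eq_top_iff]
  intro x _
  have h3 : ψ x ∈ B.map ψ := by
    rw [e4]
    exact ⟨x, rfl⟩
  obtain ⟨y, hy, hyx⟩ := h3
  rwa [← ψ.injective hyx]

theorem Dec_top {k C : Type} [Field k] [Field C] [CharZero C] [Algebra k C] {m : ℕ} [NeZero m]
    [IsCyclotomicExtension {m} k C] {ζ : C} (hζ : IsPrimitiveRoot ζ m)
    (T : IntermediateField ℚ C) (h1 : ζ ∈ T) (h2 : ∀ x : k, algebraMap k C x ∈ T) : T = ⊤ := by
  rw [eq_top_iff]
  intro x _
  have hx : x ∈ Algebra.adjoin k ({ζ} : Set C) := by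
    rw [IsCyclotomicExtension.adjoin_primitive_root_eq_top hζ]
    exact Algebra.mem_top
  induction hx using Algebra.adjoin_induction with
  | mem y hy =>
    rw [Set.mem_singleton_iff] at hy
    rw [hy]
    exact h1
  | algebraMap r => exact h2 r
  | add y z _ _ hy hz => exact T.add_mem (hy IntermediateField.mem_top) (hz IntermediateField.mem_top)
  | mul y z _ _ hy hz => exact T.mul_mem (hy IntermediateField.mem_top) (hz IntermediateField.mem_top)

theorem Dec_main {k K L C : Type} [Field k] [NumberField k] [Field K] [NumberField K] [Field L]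
    [NumberField L] [Algebra k K] [Algebra k L] [Algebra K L] [IsScalarTower k K L] {p n : ℕ}
    [Fact p.Prime] (hp2 : p ≠ 2) [Field C] [NumberField C] [Algebra k C]
    [IsCyclotomicExtension {p ^ (n + 1)} k C] (φ : L →ₐ[k] C)
    (hreal : IsTotallyReal L) (hk : ∃ r : ℕ, Module.finrank ℚ k = 2 ^ r) :
    ∃ (K' L' : Type) (_ : Field K') (_ : NumberField K') (_ : Field L') (_ : NumberField L')
      (_ : Algebra K' L'), Nonempty (Comp k K' L' K L) ∧ IsR p L' ∧
      Module.finrank K' L' = Module.finrank K L ∧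
      ∀ N : ℕ, p ^ N ∣ Module.finrank ℚ K → p ^ N ∣ Module.finrank ℚ K' := by
  have hp : p.Prime := Fact.out
  have hne : NeZero (p ^ (n + 1)) := ⟨pow_ne_zero _ hp.ne_zero⟩
  have hneQ : NeZero ((p ^ (n + 1) : ℕ) : ℚ) :=
    ⟨Nat.cast_ne_zero.2 (pow_ne_zero _ hp.ne_zero)⟩
  have hζ := IsCyclotomicExtension.zeta_spec (p ^ (n + 1)) k C
  set ζ := IsCyclotomicExtension.zeta (p ^ (n + 1)) k C with hζdef
  set Z : IntermediateField ℚ C := IntermediateField.adjoin ℚ {ζ} with hZ
  have hZcyc : IsCyclotomicExtension {p ^ (n + 1)} ℚ Z :=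
    hζ.intermediateField_adjoin_isCyclotomicExtension ℚ
  have hZgal : @IsGalois ℚ _ Z _ (IntermediateField.algebra' Z) :=
    @IsCyclotomicExtension.isGalois {p ^ (n + 1)} ℚ Z _ _ (IntermediateField.algebra' Z) hZcyc
  have hζZ : ζ ∈ Z := IntermediateField.mem_adjoin_simple_self ℚ ζ
  let ψL : L →ₐ[ℚ] C := φ.restrictScalars ℚ
  let ψK : K →ₐ[ℚ] C := ψL.comp (IsScalarTower.toAlgHom ℚ K L)
  let ψk : k →ₐ[ℚ] C := IsScalarTower.toAlgHom ℚ k C
  have cL : ∀ x : k, ψL (algebraMap K L (algebraMap k K x)) = algebraMap k C x := by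
    intro x
    rw [← IsScalarTower.algebraMap_apply k K L x]
    exact φ.commutes x
  set SL : Set L := Set.range (fun x : k => algebraMap K L (algebraMap k K x)) with hSL
  set SK : Set K := Set.range (algebraMap k K) with hSK
  have hL : Z ⊔ (IntermediateField.adjoin ℚ SL).map ψL = ⊤ := by
    refine Dec_top (k := k) hζ _ ((le_sup_left : Z ≤ _) hζZ) fun x => ?_
    refine (le_sup_right : (IntermediateField.adjoin ℚ SL).map ψL ≤ _) ?_
    exact ⟨_, IntermediateField.subset_adjoin ℚ _ ⟨x, rfl⟩, cL x⟩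
  have hK : Z ⊔ (IntermediateField.adjoin ℚ SK).map ψK = ⊤ := by
    refine Dec_top (k := k) hζ _ ((le_sup_left : Z ≤ _) hζZ) fun x => ?_
    refine (le_sup_right : (IntermediateField.adjoin ℚ SK).map ψK ≤ _) ?_
    exact ⟨_, IntermediateField.subset_adjoin ℚ _ ⟨x, rfl⟩, cL x⟩
  have hk' : Z ⊔ ψk.fieldRange = ⊤ := by
    refine Dec_top (k := k) hζ _ ((le_sup_left : Z ≤ _) hζZ) fun x => ?_
    exact (le_sup_right : ψk.fieldRange ≤ _) ⟨x, rfl⟩
  have hL' : Z ⊔ ψL.fieldRange = ⊤ := by
    rw [eq_top_iff, ← hL]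
    refine sup_le_sup_left ?_ Z
    rintro x ⟨y, -, rfl⟩
    exact ⟨y, rfl⟩
  have hK' : Z ⊔ ψK.fieldRange = ⊤ := by
    rw [eq_top_iff, ← hK]
    refine sup_le_sup_left ?_ Z
    rintro x ⟨y, -, rfl⟩
    exact ⟨y, rfl⟩
  have gL := Dec_gen ψL Z SL hL
  have gK := Dec_gen ψK Z SK hK
  have dL := Dec_deg ψL Z hL'
  have dK := Dec_deg ψK Z hK'
  have dk := Dec_deg ψk Z hk'
  have zpos : 0 < Module.finrank ℚ Z := Module.finrank_pos
  have cpos : 0 < Module.finrank ℚ C := Module.finrank_pos
  have Kpos : 0 < Module.finrank ℚ K := Module.finrank_pos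
  have K'pos : 0 < Module.finrank ℚ (Z.comap ψK) := Module.finrank_pos
  let i : (Z.comap ψK) →+* (Z.comap ψL) :=
    { toFun := fun x => ⟨algebraMap K L x.1, x.2⟩
      map_one' := by ext; simp
      map_zero' := by ext; simp
      map_mul' := by intro x y; ext; simp
      map_add' := by intro x y; ext; simp }
  let alg : Algebra (Z.comap ψK) (Z.comap ψL) := i.toAlgebra
  refine ⟨Z.comap ψK, Z.comap ψL, inferInstance, inferInstance, inferInstance, inferInstance, alg,
    ⟨?_⟩, ⟨?_, ?_⟩, ?_, ?_⟩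
  · refine
      { f := algebraMap k K
        g := (Z.comap ψK).val.toRingHom
        h := (Z.comap ψL).val.toRingHom
        comm := fun x => rfl
        genK := ?_
        genL := ?_ }
    · have e : Set.range ((Z.comap ψK).val.toRingHom) = (Z.comap ψK : Set K) := Subtype.range_coe
      rw [e]
      exact gK
    · have e : Set.range ((Z.comap ψL).val.toRingHom) = (Z.comap ψL : Set L) := Subtype.range_coe
      rw [e]
      exact gL
  · exact IsTotallyReal.of_algebra (Z.comap ψL) L
  · refine ⟨n, ⟨?_⟩⟩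
    have hcyc : IsCyclotomicExtension {p ^ (n + 1)} ℚ (CyclotomicField (p ^ (n + 1)) ℚ) :=
      CyclotomicField.isCyclotomicExtension _ _
    have e := IsCyclotomicExtension.algEquiv {p ^ (n + 1)} ℚ Z (CyclotomicField (p ^ (n + 1)) ℚ)
    let j : (Z.comap ψL) →+* Z :=
      { toFun := fun x => ⟨ψL x.1, x.2⟩
        map_one' := by ext; simp
        map_zero' := by ext; simp
        map_mul' := by intro x y; ext; simp
        map_add' := by intro x y; ext; simp }
    exact e.toRingEquiv.toRingHom.comp j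
  · have t1 := Module.finrank_mul_finrank ℚ K L
    have : IsScalarTower ℚ (Z.comap ψK) (Z.comap ψL) :=
      IsScalarTower.of_algebraMap_eq' (Subsingleton.elim _ _)
    have t2 := Module.finrank_mul_finrank ℚ (Z.comap ψK) (Z.comap ψL)
    rw [← t1, ← t2] at dL
    have h1 : Module.finrank ℚ C * Module.finrank ℚ (Z.comap ψK) *
        Module.finrank (Z.comap ψK) (Z.comap ψL) =
        Module.finrank ℚ C * Module.finrank ℚ (Z.comap ψK) * Module.finrank K L := by
      calc _ = Module.finrank ℚ C * (Module.finrank ℚ (Z.comap ψK) *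
            Module.finrank (Z.comap ψK) (Z.comap ψL)) := by ring
        _ = Module.finrank ℚ K * Module.finrank ℚ Z * Module.finrank K L := by rw [dL]; ring
        _ = _ := by rw [← dK]
    exact Nat.eq_of_mul_eq_mul_left (Nat.mul_pos cpos K'pos) h1
  · intro N hN
    obtain ⟨r, hr⟩ := hk
    have h1 : Module.finrank ℚ K * Module.finrank ℚ (Z.comap ψk) =
        Module.finrank ℚ (Z.comap ψK) * 2 ^ r := by
      rw [← hr]
      apply Nat.eq_of_mul_eq_mul_left (Nat.mul_pos cpos zpos)
      calc _ = (Module.finrank ℚ K * Module.finrank ℚ Z) *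
            (Module.finrank ℚ C * Module.finrank ℚ (Z.comap ψk)) := by ring
        _ = _ := by rw [← dK, dk]; ring
    have h2 : p ^ N ∣ Module.finrank ℚ (Z.comap ψK) * 2 ^ r := by
      rw [← h1]
      exact hN.mul_right _
    refine (Nat.Coprime.dvd_of_dvd_mul_right ?_ h2)
    exact Nat.Coprime.pow _ _ ((Nat.coprime_primes hp Nat.prime_two).2 hp2)

theorem decompose {k K L : Type} [Field k] [NumberField k] [Field K] [NumberField K] [Field L]
    [NumberField L] [Algebra k K] [Algebra k L] [Algebra K L] [IsScalarTower k K L] {p n : ℕ}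
    [Fact p.Prime] (hp2 : p ≠ 2) (φ : L →ₐ[k] CyclotomicField (p ^ (n + 1)) k)
    (hreal : IsTotallyReal L) (hk : ∃ r : ℕ, Module.finrank ℚ k = 2 ^ r) :
    ∃ (K' L' : Type) (_ : Field K') (_ : NumberField K') (_ : Field L') (_ : NumberField L')
      (_ : Algebra K' L'), Nonempty (Comp k K' L' K L) ∧ IsR p L' ∧
      Module.finrank K' L' = Module.finrank K L ∧
      ∀ N : ℕ, p ^ N ∣ Module.finrank ℚ K → p ^ N ∣ Module.finrank ℚ K' := by
  have hp : p.Prime := Fact.out
  have hne : NeZero (p ^ (n + 1)) := ⟨pow_ne_zero _ hp.ne_zero⟩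
  have hnek : NeZero ((p ^ (n + 1) : ℕ) : k) :=
    ⟨Nat.cast_ne_zero.2 (pow_ne_zero _ hp.ne_zero)⟩
  have hCn : NumberField (CyclotomicField (p ^ (n + 1)) k) :=
    IsCyclotomicExtension.numberField {p ^ (n + 1)} k _
  have hcyc : IsCyclotomicExtension {p ^ (n + 1)} k (CyclotomicField (p ^ (n + 1)) k) :=
    CyclotomicField.isCyclotomicExtension _ _
  exact Dec_main (p := p) (n := n) hp2 φ hreal hk

end H68QS
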