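import Pool.Agent.H68.QS.Df

/-!
ROW Base (the case of the rationals).  PROOF.
`[k : ℚ] = 1`, so all elements of `k` are rational (`algebraMap ℚ k` is surjective) and `C.f` has image in `⊥`; `C.genK` says `adjoin ℚ (range C.g) = ⊤`, and `C.g.fieldRange` is a subfield, so `C.g` is surjective; same for `C.h`.
So `C.g : K' ≃+* K`, `C.h : L' ≃+* L`, compatible. `IsR p L` follows from `IsR p L'` (`IsTotallyReal.ofRingEquiv`, compose the embedding with the inverse). Degrees: `[K : ℚ] = [K' : ℚ]`, `[L : ℚ] = [L' : ℚ]`, and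
`[K : ℚ] [L : K] = [L : ℚ]` gives `[L : K] = [L' : K'] = p ^ i`. Now apply `H73IS.layer` (file `H73/IS/Tow.lean`) with `D = M`.
-/

set_option autoImplicit false

open IsDedekindDomain NumberField Pool.Agent.H10 H5SW

namespace H68QS

private theorem Base_surj {k K' K : Type} [Field k] [NumberField k] [Field K'] [NumberField K']
    [Field K] [NumberField K] (f : k →+* K) (g : K' →+* K) (hk : Module.finrank ℚ k = 1)
    (s : Set K) (hs : s ⊆ Set.range f)
    (h : IntermediateField.adjoin ℚ (s ∪ Set.range g) = ⊤) : Function.Surjective g := by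
  intro y
  have h1 : IntermediateField.adjoin ℚ (s ∪ Set.range g) ≤ (g.toRatAlgHom).fieldRange := by
    rw [IntermediateField.adjoin_le_iff]
    rintro z (hz | ⟨x, rfl⟩)
    · obtain ⟨x, rfl⟩ := hs hz
      have hb : (⊥ : Subalgebra ℚ k) = ⊤ := Subalgebra.bot_eq_top_of_finrank_eq_one hk
      have hx : x ∈ (⊥ : Subalgebra ℚ k) := by
        rw [hb]
        exact Algebra.mem_top
      obtain ⟨r, rfl⟩ := Algebra.mem_bot.1 hx
      refine ⟨algebraMap ℚ K' r, ?_⟩
      change g (algebraMap ℚ K' r) = f (algebraMap ℚ k r)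
      rw [RingHom.map_rat_algebraMap, RingHom.map_rat_algebraMap]
    · exact ⟨x, rfl⟩
  have h2 : y ∈ IntermediateField.adjoin ℚ (s ∪ Set.range g) := by
    rw [h]
    exact IntermediateField.mem_top
  obtain ⟨x, hx⟩ := h1 h2
  exact ⟨x, hx⟩

theorem good_base {k K' L' K L : Type} [Field k] [NumberField k] [Field K'] [NumberField K']
    [Field L'] [NumberField L'] [Field K] [NumberField K] [Field L] [NumberField L]
    [Algebra K' L'] [Algebra K L] (C : Comp k K' L' K L) (hk : Module.finrank ℚ k = 1)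
    {p k0 T : ℕ} [Fact p.Prime] (hp2 : p ≠ 2) (hS : NV p k0) {M : ℤ} (hM : M ≠ 0)
    (hT : ∀ q : ℕ, q.Prime → q ∣ M.natAbs → q ≠ p → ¬ p ^ (T + 1) ∣ q ^ (p - 1) - 1)
    (hL : IsR p L') {i : ℕ} (hi : Module.finrank K' L' = p ^ i)
    (hN : p ^ (k0 + T + 1) ∣ Module.finrank ℚ K') : Good M K L := by
  have hp := (Fact.out : p.Prime)
  have hg : Function.Surjective C.g := Base_surj C.f C.g hk _ subset_rfl C.genK
  have hh : Function.Surjective C.h := by
    refine Base_surj ((algebraMap K L).comp C.f) C.h hk _ ?_ C.genL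
    rintro z ⟨x, rfl⟩
    exact ⟨x, rfl⟩
  let eg : K' ≃+* K := RingEquiv.ofBijective C.g ⟨C.g.injective, hg⟩
  let eh : L' ≃+* L := RingEquiv.ofBijective C.h ⟨C.h.injective, hh⟩
  have dK : Module.finrank ℚ K = Module.finrank ℚ K' := by
    have := LinearEquiv.finrank_eq (RingEquiv.toRatAlgEquiv eg).toLinearEquiv
    exact this.symm
  have dL : Module.finrank ℚ L = Module.finrank ℚ L' := by
    have := LinearEquiv.finrank_eq (RingEquiv.toRatAlgEquiv eh).toLinearEquiv
    exact this.symm
  have hi' : Module.finrank K L = p ^ i := by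
    have h1 := Module.finrank_mul_finrank ℚ K' L'
    have h2 := Module.finrank_mul_finrank ℚ K L
    rw [dK, dL, ← h1, hi] at h2
    exact Nat.eq_of_mul_eq_mul_left Module.finrank_pos h2
  have hLL : IsR p L := by
    obtain ⟨h1, n, ⟨e⟩⟩ := hL
    have := h1
    exact ⟨IsTotallyReal.ofRingEquiv eh, n, ⟨e.comp (eh.symm : L →+* L')⟩⟩
  have hpos : Module.finrank ℚ K ≠ 0 := Module.finrank_pos.ne'
  have hv : k0 + T + 1 ≤ padicValNat p (Module.finrank ℚ K) := by
    rw [← padicValNat_dvd_iff_le hpos, dK]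
    exact hN
  obtain ⟨c1, c2, c3, c4, -, c6⟩ := H73IS.layer (K := K) (L := L) hp2 hS hM hT hLL hi'
    (by omega) (by omega) (by
      intro h3
      right
      rw [dK]
      refine Dvd.dvd.trans ?_ hN
      rw [← h3]
      exact dvd_pow_self p (by omega))
  refine ⟨c1, ?_, c2, c3, c4, c6⟩
  rw [hi']
  exact (hp.odd_of_ne_two hp2).pow

end H68QS
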