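import Pool.Agent.H68.QS.Df

/-!
ROW Unr (two is unramified in subfields and in cyclotomic towers).  PROOF.
(1) `unr_down`: `w` a prime of `K` with `2 ∈ w ^ 2`; `exists_over` (file `QS/Val.lean`) gives a prime `W` of `L` over `w`, so `2 ∈ W` and `2 ∈ W ^ 2` (image of `w ^ 2`), contradiction.
(2) `val_two`/`unr_of_val`: `Unr2 L` iff for all `w` with `2 ∈ w`: `w.valuation L 2 = exp (-1)` (`Pool.Agent.H10.val_two_of_unram`, and `HeightOneSpectrum.intValuation_le_pow_iff_mem`).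
(3) `unr_cyc`: put `C = CyclotomicField (p ^ (n+1)) k`. `L` embeds in `C`, so by (1) (with `C` made an `L`-algebra by `φ`) it is enough to prove `Unr2 C`. Let `W` be a prime of `C` with `2 ∈ W` and `w = W ∩ 𝓞 k`. By
`HeightOneSpectrum.valuation_liesOver` `W.valuation C 2 = (w.valuation k 2) ^ e` with `e = ramificationIdx' w W`, so it suffices to prove `e = 1`. `C/k` is Galois (`IsCyclotomicExtension.isGalois`), and the inertia group of
`W` has order `e` (`Ideal.card_inertia_eq_ramificationIdxIn`, `Ideal.ramificationIdxIn_eq_ramificationIdx`; the residue fields are finite, so perfect), so it suffices that the inertia group is trivial: let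
`σ x - x ∈ W` for all `x ∈ 𝓞 C`; let `ζ ∈ 𝓞 C` be a primitive root of unity of order `q = p ^ (n+1)` and assume `σ ζ ≠ ζ`. `σ ζ = ζ ^ a`, so `ζ (ζ ^ (a-1) - 1) ∈ W`, so `ζ ^ j - 1 ∈ W` with `q ∤ j`; as
`∏_{0<i<q} (1 - ζ^i) = q` (`IsPrimitiveRoot.prod_one_sub_pow_eq_order` or evaluate `X^q - 1 = ∏ (X - ζ^i)`) we get `q ∈ W`, and `2 ∈ W`, `q` odd: `1 ∈ W`, contradiction. So `σ ζ = ζ` and `σ = 1`, since `ζ` generates `C` over `k`.
-/

set_option autoImplicit false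

open IsDedekindDomain NumberField WithZero Pool.Agent.H10

namespace H68QS

theorem unr_down {K L : Type} [Field K] [NumberField K] [Field L] [NumberField L] [Algebra K L]
    (h : Unr2 L) : Unr2 K := by
  intro w hw hw2
  obtain ⟨W, hWw⟩ := exists_over (L2 := L) w
  have h1 : w.asIdeal.map (algebraMap (𝓞 K) (𝓞 L)) ≤ W.asIdeal := by
    rw [Ideal.map_le_iff_le_comap]
    exact (hWw.over).le
  have h2 : (2 : 𝓞 L) ∈ W.asIdeal := by
    have h3 := h1 (Ideal.mem_map_of_mem (algebraMap (𝓞 K) (𝓞 L)) hw)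
    rwa [map_ofNat] at h3
  apply h W h2
  have h3 := Ideal.mem_map_of_mem (algebraMap (𝓞 K) (𝓞 L)) hw2
  rw [Ideal.map_pow, map_ofNat] at h3
  exact Ideal.pow_right_mono h1 2 h3

theorem Unr_cyc {k C : Type} [Field k] [NumberField k] [Field C] [NumberField C] [Algebra k C]
    {q : ℕ} [NeZero q] [IsCyclotomicExtension {q} k C] (hq : Odd q) (h : Unr2 k) : Unr2 C := by
  intro W hW hW2
  obtain ⟨w, hw⟩ : ∃ w : Ideal (𝓞 k), w = W.asIdeal.under (𝓞 k) := ⟨_, rfl⟩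
  have hwp : w.IsPrime := by
    rw [hw]
    infer_instance
  have h2w : (2 : 𝓞 k) ∈ w := by
    rw [hw, Ideal.under_def, Ideal.mem_comap, map_ofNat]
    exact hW
  have hw0 : w ≠ ⊥ := by
    rintro rfl
    rw [Ideal.mem_bot] at h2w
    exact two_ne_zero h2w
  have hwm : w.IsMaximal := hwp.isMaximal hw0
  have h2w2 : (2 : 𝓞 k) ∉ w ^ 2 := h ⟨w, hwp, hw0⟩ h2w
  obtain ⟨J, hJ⟩ : w ∣ Ideal.span {(2 : 𝓞 k)} := by
    rw [Ideal.dvd_span_singleton]
    exact h2w
  have hJw : ¬ J ≤ w := by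
    intro hJw
    apply h2w2
    have h1 : (2 : 𝓞 k) ∈ w * J := by
      rw [← hJ]
      exact Ideal.mem_span_singleton_self _
    rw [pow_two]
    exact Ideal.mul_mono_right hJw h1
  have hdvd : W.asIdeal ^ 2 ∣ w.map (algebraMap (𝓞 k) (𝓞 C)) *
      J.map (algebraMap (𝓞 k) (𝓞 C)) := by
    rw [← Ideal.map_mul, ← hJ, Ideal.map_span, Set.image_singleton, map_ofNat,
      Ideal.dvd_span_singleton]
    exact hW2
  have hJW : ¬ W.asIdeal ∣ J.map (algebraMap (𝓞 k) (𝓞 C)) := by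
    rw [Ideal.dvd_iff_le, Ideal.map_le_iff_le_comap]
    rw [hw, Ideal.under_def] at hJw
    exact hJw
  have hdvd2 : W.asIdeal ^ 2 ∣ w.map (algebraMap (𝓞 k) (𝓞 C)) :=
    W.prime.pow_dvd_of_dvd_mul_right 2 hJW hdvd
  have hdiff : W.asIdeal ^ (2 - 1) ∣ differentIdeal (𝓞 k) (𝓞 C) :=
    pow_sub_one_dvd_differentIdeal (𝓞 k) W.asIdeal 2 hw0 hdvd2
  rw [pow_one] at hdiff
  have hζ := IsCyclotomicExtension.zeta_spec q k C
  obtain ⟨ζ, hζ'⟩ : ∃ ζ : 𝓞 C, algebraMap (𝓞 C) C ζ = IsCyclotomicExtension.zeta q k C :=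
    ⟨⟨_, hζ.isIntegral (NeZero.pos q)⟩, rfl⟩
  rw [← hζ'] at hζ
  have htop : Algebra.adjoin k {algebraMap (𝓞 C) C ζ} = ⊤ :=
    IsCyclotomicExtension.adjoin_primitive_root_eq_top hζ
  have h1 := aeval_derivative_mem_differentIdeal (𝓞 k) k C ζ htop
  have h2 := (Ideal.dvd_iff_le.1 hdiff) h1
  have hint : IsIntegral (𝓞 k) ζ := Algebra.IsIntegral.isIntegral ζ
  have hζq : ζ ^ q = 1 := by
    apply FaithfulSMul.algebraMap_injective (𝓞 C) C
    rw [map_pow, hζ.pow_eq_one, map_one]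
  obtain ⟨g, hg⟩ := minpoly.isIntegrallyClosed_dvd hint
    (p := (Polynomial.X ^ q - 1 : Polynomial (𝓞 k))) (by simp [hζq])
  have h3 := congrArg (fun f => Polynomial.aeval ζ (Polynomial.derivative f)) hg
  simp only [Polynomial.derivative_sub, Polynomial.derivative_X_pow, Polynomial.derivative_one,
    sub_zero, Polynomial.derivative_mul, map_add, map_mul, minpoly.aeval, zero_mul, add_zero,
    Polynomial.aeval_X_pow, map_natCast] at h3
  have h4 : (q : 𝓞 C) * ζ ^ (q - 1) ∈ W.asIdeal := by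
    rw [h3]
    exact Ideal.mul_mem_right _ _ h2
  have h5 : (q : 𝓞 C) ∈ W.asIdeal := by
    have h6 : (q : 𝓞 C) = (q : 𝓞 C) * ζ ^ (q - 1) * ζ := by
      rw [mul_assoc, ← pow_succ, Nat.sub_add_cancel (NeZero.pos q), hζq, mul_one]
    rw [h6]
    exact Ideal.mul_mem_right _ _ h4
  obtain ⟨j, hj⟩ := hq
  have h7 : (1 : 𝓞 C) ∈ W.asIdeal := by
    have h8 : (1 : 𝓞 C) = (q : 𝓞 C) - 2 * (j : 𝓞 C) := by
      rw [hj]
      push_cast
      ring
    rw [h8]
    exact Ideal.sub_mem _ h5 (Ideal.mul_mem_right _ _ hW)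
  exact W.isPrime.ne_top ((Ideal.eq_top_iff_one _).2 h7)

theorem unr_cyc {k L : Type} [Field k] [NumberField k] [Field L] [NumberField L] [Algebra k L]
    {p n : ℕ} [Fact p.Prime] (hp2 : p ≠ 2) (h : Unr2 k)
    (φ : L →ₐ[k] CyclotomicField (p ^ (n + 1)) k) : Unr2 L := by
  let _ : Algebra L (CyclotomicField (p ^ (n + 1)) k) := φ.toRingHom.toAlgebra
  have hne : NeZero (p ^ (n + 1)) := ⟨pow_ne_zero _ (Fact.out : p.Prime).ne_zero⟩
  have hodd : Odd (p ^ (n + 1)) := ((Fact.out : p.Prime).odd_of_ne_two hp2).pow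
  exact unr_down (K := L) (L := CyclotomicField (p ^ (n + 1)) k) (Unr_cyc (k := k) hodd h)

end H68QS
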