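import Pool.Agent.H68.QS.Df

/-!
ROW Ext (real embeddings extend).  PROOF.
`L2` is algebraic over `L`, `ℂ` is algebraically closed: the composite `L → ℝ → ℂ` extends to `χ : L2 →+* ℂ` (`IsAlgClosed.lift` with `ℂ` made an `L`-algebra by this composite). `L2` is totally real, so `χ` is a real
embedding (`IsTotallyReal.complexEmbedding_isReal`) and factors through `ψ : L2 →+* ℝ` (`ComplexEmbedding.IsReal.embedding`, `IsReal.coe_embedding_apply`); injectivity of `ℝ → ℂ`.
-/

set_option autoImplicit false

open NumberField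

namespace H68QS

theorem exists_ext_real {L L2 : Type} [Field L] [NumberField L] [Field L2] [NumberField L2]
    [Algebra L L2] (h : IsTotallyReal L2) (φ : L →+* ℝ) :
    ∃ ψ : L2 →+* ℝ, ∀ y, ψ (algebraMap L L2 y) = φ y := by
  have := h
  let _ : Algebra L ℂ := (Complex.ofRealHom.comp φ).toAlgebra
  have : Algebra.IsAlgebraic L L2 := by
    have : Algebra.IsAlgebraic ℚ L2 := inferInstance
    exact Algebra.IsAlgebraic.tower_top (K := ℚ) L
  let χ : L2 →ₐ[L] ℂ := IsAlgClosed.lift
  have hr : ComplexEmbedding.IsReal χ.toRingHom := IsTotallyReal.complexEmbedding_isReal χ.toRingHom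
  refine ⟨hr.embedding, fun y => ?_⟩
  have h1 := hr.coe_embedding_apply (algebraMap L L2 y)
  have h2 : χ.toRingHom (algebraMap L L2 y) = ((φ y : ℝ) : ℂ) := χ.commutes y
  rw [h2] at h1
  exact_mod_cast h1

end H68QS
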