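import Pool.Agent.H68.QS.Df

/-!
ROW Gal (a compositum with a Galois extension is Galois).  PROOF.
Work over `K` in `L2`: `A = (IsScalarTower.toAlgHom K L L2).fieldRange`, `B = (IsScalarTower.toAlgHom K K2 L2).fieldRange : IntermediateField K L2`. `A` is Galois over `K` (`IsGalois.of_algEquiv` with
`AlgEquiv.ofInjectiveField`), `A ⊔ B = ⊤`: an element of `IntermediateField.adjoin K2 (Set.range (algebraMap L L2)) = ⊤` lies in `A ⊔ B` (`IntermediateField.adjoin_induction`, elements of `K2` are in `B`, elements of
`L` in `A`). `IsGalois.sup_right A B` gives `IsGalois B L2`. Transport to `K2`: `K2 ≃ B`; e.g. by `IsGalois.of_algEquiv`-like or by hand: `Normal` and `IsSeparable` (characteristic zero), minimal polynomials over `B` and `K2` agree;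
or `IsGalois.of_equiv_equiv`.
Second theorem: minimal polynomial of `δ` over `L` is `X ^ 2 - C D` (degree two polynomial without root, `Polynomial.irreducible_of_degree_le_three_of_not_isRoot` or `X_pow_sub_C_irreducible_iff..`);
`IntermediateField.adjoin.finrank`, `finrank_top'`.
-/

set_option autoImplicit false

open IsDedekindDomain NumberField

namespace H68QS

theorem galois_up {K L K2 L2 : Type} [Field K] [NumberField K] [Field L] [NumberField L]
    [Field K2] [NumberField K2] [Field L2] [NumberField L2]
    [Algebra K L] [Algebra K K2] [Algebra K L2] [Algebra L L2] [Algebra K2 L2]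
    [IsScalarTower K L L2] [IsScalarTower K K2 L2] [IsGalois K L]
    (hgen : IntermediateField.adjoin K2 (Set.range (algebraMap L L2)) = ⊤) : IsGalois K2 L2 := by
  have hfd : FiniteDimensional K L := Module.Finite.of_restrictScalars_finite ℚ K L
  have hfd2 : FiniteDimensional K2 L2 := Module.Finite.of_restrictScalars_finite ℚ K2 L2
  obtain ⟨T, hT₁, hT₂⟩ := IsGalois.is_separable_splitting_field K L
  have hs : (T.map (algebraMap K K2)).IsSplittingField K2 L2 := by
    rw [isSplittingField_iff_intermediateField] at hT₂ ⊢
    refine ⟨?_, ?_⟩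
    · rw [Polynomial.map_map, ← IsScalarTower.algebraMap_eq]
      exact Polynomial.Splits.of_algHom hT₂.1 (IsScalarTower.toAlgHom K L L2)
    · rw [eq_top_iff, ← hgen, IntermediateField.adjoin_le_iff]
      rintro _ ⟨x, rfl⟩
      have hx : x ∈ IntermediateField.adjoin K (T.rootSet L) := by rw [hT₂.2]; trivial
      induction hx using IntermediateField.adjoin_induction with
      | mem x hx =>
        apply IntermediateField.subset_adjoin
        rw [Polynomial.mem_rootSet'] at hx ⊢
        refine ⟨?_, ?_⟩
        · rw [Polynomial.map_map, ← IsScalarTower.algebraMap_eq]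
          have h0 : T ≠ 0 := by
            rintro rfl
            exact hx.1 (Polynomial.map_zero _)
          exact (Polynomial.map_ne_zero_iff (algebraMap K L2).injective).mpr h0
        · rw [Polynomial.aeval_map_algebraMap, Polynomial.aeval_algebraMap_apply, hx.2, map_zero]
      | algebraMap x =>
        rw [← IsScalarTower.algebraMap_apply, IsScalarTower.algebraMap_apply K K2 L2]
        exact IntermediateField.algebraMap_mem _ _
      | add x y _ _ hx hy => rw [map_add]; exact add_mem hx hy
      | inv x _ hx => rw [map_inv₀]; exact inv_mem hx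
      | mul x y _ _ hx hy => rw [map_mul]; exact mul_mem hx hy
  exact IsGalois.of_separable_splitting_field (p := T.map (algebraMap K K2)) hT₁.map

theorem quad_of_adjoin {L L2 : Type} [Field L] [NumberField L] [Field L2] [NumberField L2]
    [Algebra L L2] {D : L} {δ : L2} (h : δ ^ 2 = algebraMap L L2 D)
    (hn : ∀ r : L, algebraMap L L2 r ≠ δ) (hgen : IntermediateField.adjoin L {δ} = ⊤) :
    Algebra.IsQuadraticExtension L L2 := by
  have hirr : Irreducible (Polynomial.X ^ 2 - Polynomial.C D : Polynomial L) := by
    apply X_pow_sub_C_irreducible_of_prime Nat.prime_two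
    intro b hb
    have h1 : (algebraMap L L2 b) ^ 2 = δ ^ 2 := by rw [h, ← hb, map_pow]
    rcases sq_eq_sq_iff_eq_or_eq_neg.mp h1 with h2 | h2
    · exact hn b h2
    · exact hn (-b) (by rw [map_neg, h2, neg_neg])
  have hfd : FiniteDimensional L L2 := Module.Finite.of_restrictScalars_finite ℚ L L2
  have hmin : minpoly L δ = Polynomial.X ^ 2 - Polynomial.C D := by
    symm
    apply minpoly.eq_of_irreducible_of_monic hirr
    · rw [map_sub, map_pow, Polynomial.aeval_X, Polynomial.aeval_C, h, sub_self]
    · exact Polynomial.monic_X_pow_sub_C D two_ne_zero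
  have h2 : Module.finrank L (IntermediateField.adjoin L {δ}) = 2 := by
    rw [IntermediateField.adjoin.finrank (IsIntegral.of_finite L δ), hmin,
      Polynomial.natDegree_X_pow_sub_C]
  rw [hgen, IntermediateField.finrank_top'] at h2
  exact { finrank_eq_two' := h2 }

end H68QS
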