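import Pool.Agent.H68.QS.Df

/-!
ROW Sub (the pair of subfields for an index two subfield of `k`).  PROOF.
`C.f, C.g, C.h` are the maps; `k₁` is an `IntermediateField ℚ k`, `δ ∈ k` with `k₁` and `δ` generating `k`. Put (as `IntermediateField ℚ K2`, `IntermediateField ℚ L2`)
 `K = adjoin ℚ (C.f '' k₁ ∪ range C.g)`, `L = adjoin ℚ ((algebraMap K2 L2 ∘ C.f) '' k₁ ∪ range C.h)`.
`algebraMap K2 L2` maps `K` into `L`: for the generators by `C.comm` (`IntermediateField.adjoin_induction`, or `K ≤ L.comap _`). This defines a ring homomorphism `K →+* L` and `Algebra K L := _.toAlgebra`; `K → K2`, `L → L2` are the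
inclusions, `K → L2` the composite through `K2` (instances of `IntermediateField`), the two scalar towers hold by definition (`IsScalarTower.of_algebraMap_eq`, `rfl`).
The `Comp k₁ K' L' K L`: maps are the corestrictions; `genK`: `adjoin ℚ (range ∪ range)` inside `↥K` is everything (`IntermediateField.lift`/`adjoin_map`: its image in `K2` is `K`; use `IntermediateField.map_injective`-type
arguments, or `adjoin_induction` on elements of `K`).
Case 1: `C.f δ ∈ K`. Then `K` contains `C.f k₁` and `C.f δ`, so `C.f k`, so `K = ⊤` by `C.genK`; `L` contains the image of `K`, so `algebraMap (C.f k)`, so `L = ⊤` by `C.genL`. The first alternative holds with `f = C.f ∘ (k₁ → k)`.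
Case 2: `C.f δ ∉ K`: the second alternative. `adjoin K {C.f δ} = ⊤` and `adjoin L {algebraMap K2 L2 (C.f δ)} = ⊤`: both contain `k₁`, `δ`, `K'`, `L'`. `adjoin K2 (range (L → L2)) = ⊤`: contains `C.f k` and `C.h L'`.
-/

set_option autoImplicit false

open NumberField

namespace H68QS

private theorem Sub_adj_le {B F : Type} [Field B] [Field F] [Algebra B F] (S : Set F)
    (M : Subfield F) (hB : ∀ b : B, algebraMap B F b ∈ M) (h : S ⊆ M) :
    ∀ x ∈ IntermediateField.adjoin B S, x ∈ M := by
  intro x hx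
  have h1 : IntermediateField.adjoin B S ≤ M.toIntermediateField hB :=
    IntermediateField.adjoin_le_iff.2 h
  exact h1 hx

private theorem Sub_gen {B F : Type} [Field B] [Field F] [Algebra B F] {S : Set F}
    (hS : IntermediateField.adjoin B S = ⊤) (M : Subfield F)
    (hB : ∀ b : B, algebraMap B F b ∈ M) (h : S ⊆ M) (x : F) : x ∈ M :=
  Sub_adj_le S M hB h x (by rw [hS]; exact IntermediateField.mem_top)

private theorem Sub_top {B F : Type} [Field B] [Field F] [Algebra B F] {S : Set F}
    (h : ∀ M : Subfield F, (∀ b : B, algebraMap B F b ∈ M) → S ⊆ M → ∀ x, x ∈ M) :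
    IntermediateField.adjoin B S = ⊤ := by
  rw [eq_top_iff]
  intro x _
  exact h (IntermediateField.adjoin B S).toSubfield
    (fun b => (IntermediateField.adjoin B S).algebraMap_mem b)
    (IntermediateField.subset_adjoin B S) x

private theorem Sub_rat {F : Type} [Field F] [Algebra ℚ F] (M : Subfield F) (q : ℚ) :
    algebraMap ℚ F q ∈ M := by
  rw [eq_ratCast]
  exact SubfieldClass.ratCast_mem M q

theorem sub_pair {k K' L' K2 L2 : Type} [Field k] [NumberField k] [Field K'] [NumberField K']
    [Field L'] [NumberField L'] [Field K2] [NumberField K2] [Field L2] [NumberField L2]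
    [Algebra K' L'] [Algebra K2 L2] (C : Comp k K' L' K2 L2) (k₁ : IntermediateField ℚ k) (δ : k)
    (hδ : IntermediateField.adjoin k₁ {δ} = ⊤) :
    Nonempty (Comp k₁ K' L' K2 L2) ∨
    ∃ (K L : Type) (_ : Field K) (_ : NumberField K) (_ : Field L) (_ : NumberField L)
      (_ : Algebra K L) (_ : Algebra K K2) (_ : Algebra K L2) (_ : Algebra L L2)
      (_ : IsScalarTower K L L2) (_ : IsScalarTower K K2 L2) (C₁ : Comp k₁ K' L' K L),
      (∀ x : k₁, algebraMap K K2 (C₁.f x) = C.f (x : k)) ∧
      (∀ r : K, algebraMap K K2 r ≠ C.f δ) ∧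
      IntermediateField.adjoin K {C.f δ} = ⊤ ∧
      IntermediateField.adjoin L {algebraMap K2 L2 (C.f δ)} = ⊤ ∧
      IntermediateField.adjoin K2 (Set.range (algebraMap L L2)) = ⊤ := by
  classical
  obtain ⟨S, hS⟩ : ∃ S : Set K2, S = Set.range (fun x : k₁ => C.f (x : k)) ∪ Set.range C.g :=
    ⟨_, rfl⟩
  obtain ⟨T, hT⟩ : ∃ T : Set L2,
      T = Set.range (fun x : k₁ => algebraMap K2 L2 (C.f (x : k))) ∪ Set.range C.h := ⟨_, rfl⟩
  have hS' : ∀ z ∈ S, (∃ y : k₁, C.f (y : k) = z) ∨ ∃ y, C.g y = z := fun z hz => by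
    rw [hS] at hz
    exact hz
  have hT' : ∀ z ∈ T, (∃ y : k₁, algebraMap K2 L2 (C.f (y : k)) = z) ∨ ∃ y, C.h y = z :=
    fun z hz => by
      rw [hT] at hz
      exact hz
  have hKL : ∀ x ∈ IntermediateField.adjoin ℚ S,
      algebraMap K2 L2 x ∈ IntermediateField.adjoin ℚ T := by
    have h := Sub_adj_le (B := ℚ) S
      ((IntermediateField.adjoin ℚ T).toSubfield.comap (algebraMap K2 L2)) (Sub_rat _) (by
        rw [hS]
        rintro _ (⟨x, rfl⟩ | ⟨x, rfl⟩)
        · refine IntermediateField.subset_adjoin ℚ T ?_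
          rw [hT]
          exact Or.inl ⟨x, rfl⟩
        · change algebraMap K2 L2 (C.g x) ∈ IntermediateField.adjoin ℚ T
          rw [← C.comm]
          refine IntermediateField.subset_adjoin ℚ T ?_
          rw [hT]
          exact Or.inr ⟨_, rfl⟩)
    exact h
  have memf : ∀ x : k₁, C.f (x : k) ∈ IntermediateField.adjoin ℚ S := fun x =>
    IntermediateField.subset_adjoin ℚ S (by rw [hS]; exact Or.inl ⟨x, rfl⟩)
  have memg : ∀ x : K', C.g x ∈ IntermediateField.adjoin ℚ S := fun x =>
    IntermediateField.subset_adjoin ℚ S (by rw [hS]; exact Or.inr ⟨x, rfl⟩)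
  have memh : ∀ x : L', C.h x ∈ IntermediateField.adjoin ℚ T := fun x =>
    IntermediateField.subset_adjoin ℚ T (by rw [hT]; exact Or.inr ⟨x, rfl⟩)
  -- subfields containing the image of `k₁` and of `δ` contain the image of `k`
  have key : ∀ {F : Type} [Field F] (φ : k →+* F) (M : Subfield F),
      (∀ x : k₁, φ (x : k) ∈ M) → φ δ ∈ M → ∀ x, φ x ∈ M := by
    intro F _ φ M h1 h2 x
    exact Sub_gen hδ (M.comap φ) h1 (by
      rintro _ rfl
      exact h2) x
  -- generation of `K2` and `L2`
  have keyK : ∀ M : Subfield K2, (∀ x ∈ IntermediateField.adjoin ℚ S, x ∈ M) → C.f δ ∈ M →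
      ∀ x, x ∈ M := by
    intro M h1 h2
    refine Sub_gen C.genK M (Sub_rat _) ?_
    rintro _ (⟨x, rfl⟩ | ⟨x, rfl⟩)
    · exact key C.f M (fun x => h1 _ (memf x)) h2 x
    · exact h1 _ (memg x)
  by_cases hd : C.f δ ∈ IntermediateField.adjoin ℚ S
  · left
    have hK : ∀ x, x ∈ IntermediateField.adjoin ℚ S :=
      keyK (IntermediateField.adjoin ℚ S).toSubfield (fun x hx => hx) hd
    refine ⟨⟨C.f.comp (algebraMap k₁ k), C.g, C.h, C.comm, ?_, ?_⟩⟩
    · rw [eq_top_iff]
      intro x _
      have h := hK x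
      rw [hS] at h
      exact h
    · refine Sub_top fun M _ hM => ?_
      have h1 : ∀ x ∈ IntermediateField.adjoin ℚ T, x ∈ M := by
        refine Sub_adj_le (B := ℚ) T M (Sub_rat _) ?_
        rw [hT]
        exact hM
      refine Sub_gen C.genL M (Sub_rat _) ?_
      rintro _ (⟨x, rfl⟩ | ⟨x, rfl⟩)
      · exact h1 _ (hKL _ (hK _))
      · exact h1 _ (memh x)
  · right
    let φ : IntermediateField.adjoin ℚ S →+* IntermediateField.adjoin ℚ T :=
      { toFun := fun x => ⟨algebraMap K2 L2 x, hKL x x.2⟩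
        map_one' := Subtype.ext (map_one _)
        map_mul' := fun x y => Subtype.ext (map_mul _ _ _)
        map_zero' := Subtype.ext (map_zero _)
        map_add' := fun x y => Subtype.ext (map_add _ _ _) }
    let f₁ : k₁ →+* IntermediateField.adjoin ℚ S :=
      { toFun := fun x => ⟨C.f (x : k), memf x⟩
        map_one' := Subtype.ext (map_one C.f)
        map_mul' := fun x y => Subtype.ext (map_mul C.f _ _)
        map_zero' := Subtype.ext (map_zero C.f)
        map_add' := fun x y => Subtype.ext (map_add C.f _ _) }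
    let g₁ : K' →+* IntermediateField.adjoin ℚ S :=
      { toFun := fun x => ⟨C.g x, memg x⟩
        map_one' := Subtype.ext (map_one C.g)
        map_mul' := fun x y => Subtype.ext (map_mul C.g _ _)
        map_zero' := Subtype.ext (map_zero C.g)
        map_add' := fun x y => Subtype.ext (map_add C.g _ _) }
    let h₁ : L' →+* IntermediateField.adjoin ℚ T :=
      { toFun := fun x => ⟨C.h x, memh x⟩
        map_one' := Subtype.ext (map_one C.h)
        map_mul' := fun x y => Subtype.ext (map_mul C.h _ _)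
        map_zero' := Subtype.ext (map_zero C.h)
        map_add' := fun x y => Subtype.ext (map_add C.h _ _) }
    letI a1 : Algebra (IntermediateField.adjoin ℚ S) (IntermediateField.adjoin ℚ T) := φ.toAlgebra
    letI a2 : Algebra (IntermediateField.adjoin ℚ S) L2 :=
      ((algebraMap K2 L2).comp (algebraMap (IntermediateField.adjoin ℚ S) K2)).toAlgebra
    have genK1 : ∀ M : Subfield (IntermediateField.adjoin ℚ S),
        Set.range f₁ ∪ Set.range g₁ ⊆ M → ∀ x, x ∈ M := by
      intro M hM x
      have h1 := Sub_adj_le (B := ℚ) S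
        (M.map (algebraMap (IntermediateField.adjoin ℚ S) K2)) (Sub_rat _) (by
          intro z hz
          rcases hS' z hz with ⟨y, rfl⟩ | ⟨y, rfl⟩
          · exact ⟨f₁ y, hM (Or.inl ⟨y, rfl⟩), rfl⟩
          · exact ⟨g₁ y, hM (Or.inr ⟨y, rfl⟩), rfl⟩) x x.2
      obtain ⟨y, hy, hyx⟩ := h1
      have : y = x := Subtype.ext hyx
      rw [← this]
      exact hy
    have genL1 : ∀ M : Subfield (IntermediateField.adjoin ℚ T),
        Set.range (fun x => φ (f₁ x)) ∪ Set.range h₁ ⊆ M → ∀ x, x ∈ M := by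
      intro M hM x
      have h1 := Sub_adj_le (B := ℚ) T
        (M.map (algebraMap (IntermediateField.adjoin ℚ T) L2)) (Sub_rat _) (by
          intro z hz
          rcases hT' z hz with ⟨y, rfl⟩ | ⟨y, rfl⟩
          · exact ⟨φ (f₁ y), hM (Or.inl ⟨y, rfl⟩), rfl⟩
          · exact ⟨h₁ y, hM (Or.inr ⟨y, rfl⟩), rfl⟩) x x.2
      obtain ⟨y, hy, hyx⟩ := h1
      have : y = x := Subtype.ext hyx
      rw [← this]
      exact hy
    refine ⟨IntermediateField.adjoin ℚ S, IntermediateField.adjoin ℚ T, inferInstance,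
      inferInstance, inferInstance, inferInstance, a1, inferInstance, a2, inferInstance,
      IsScalarTower.of_algebraMap_eq (fun x => rfl), IsScalarTower.of_algebraMap_eq (fun x => rfl),
      ⟨f₁, g₁, h₁, fun x => Subtype.ext (C.comm x), Sub_top fun M _ hM => genK1 M hM,
        Sub_top fun M _ hM => genL1 M hM⟩, fun x => rfl, ?_, ?_, ?_, ?_⟩
    · intro r hr
      apply hd
      rw [← hr]
      exact r.2
    · refine Sub_top fun M hB hM => ?_
      exact keyK M (fun x hx => hB ⟨x, hx⟩) (hM rfl)
    · refine Sub_top fun M hB hM => ?_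
      refine Sub_gen C.genL M (Sub_rat _) ?_
      rintro _ (⟨x, rfl⟩ | ⟨x, rfl⟩)
      · exact key ((algebraMap K2 L2).comp C.f) M (fun x => hB ⟨_, hKL _ (memf x)⟩) (hM rfl) x
      · exact hB ⟨_, memh x⟩
    · refine Sub_top fun M hB hM => ?_
      refine Sub_gen C.genL M (Sub_rat _) ?_
      rintro _ (⟨x, rfl⟩ | ⟨x, rfl⟩)
      · exact hB _
      · exact hM ⟨⟨_, memh x⟩, rfl⟩

end H68QS
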