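import Pool.Agent.H68.QS.Df

/-!
ROW Uni (primes with a unique prime above them, quadratic step).  PROOF.
`P, Q` primes of `𝓞 L2` which contain the image of `v2`. First `P.comap (𝓞 K2 → 𝓞 L2)` contains `v2`, which is maximal, so `P` (and `Q`) lies over `v2` and is nonzero. By transitivity both lie over `v` in `𝓞 K`
(`v2` contains the image of `v`, and `v` is maximal), so the primes `P ∩ 𝓞 L`, `Q ∩ 𝓞 L` contain the image of `v`: they are the same prime `w` of `𝓞 L` by `hu`.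
Let `S = v2.asIdeal.primesOver (𝓞 L2)`. All elements of `S` are primes over the same `w`, so `S ⊆ w.primesOver (𝓞 L2)`, and the latter has at most `[L2 : L] = 2` elements
(`Ideal.sum_ramification_inertia` : sum of `e f` over the primes over `w` is `2`, each term at least one; or `Ideal.ncard_primesOver_mul_ramificationIdxIn_mul_inertiaDegIn` for the Galois extension `L2/L`: ncard divides 2).
On the other hand `L2/K2` is Galois, so `S.ncard * (e * f) = [L2 : K2]` (`Ideal.ncard_primesOver_mul_ramificationIdxIn_mul_inertiaDegIn`, with group `L2 ≃ₐ[K2] L2` acting on `𝓞 L2`), and `S.ncard` divides an odd number: it is odd.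
Odd and at most two: `S.ncard = 1`. So `P = Q` (`Set.ncard_eq_one`).
-/

set_option autoImplicit false

open IsDedekindDomain NumberField Pool.Agent.H10

namespace H68QS

theorem unique_quad {K L K2 L2 : Type} [Field K] [NumberField K] [Field L] [NumberField L]
    [Field K2] [NumberField K2] [Field L2] [NumberField L2]
    [Algebra K L] [Algebra K K2] [Algebra K L2] [Algebra L L2] [Algebra K2 L2]
    [IsScalarTower K L L2] [IsScalarTower K K2 L2]
    [Algebra.IsQuadraticExtension L L2] [IsGalois K2 L2] (hodd : Odd (Module.finrank K2 L2))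
    {v : HeightOneSpectrum (𝓞 K)} {v2 : HeightOneSpectrum (𝓞 K2)}
    (hv : v.asIdeal.map (algebraMap (𝓞 K) (𝓞 K2)) ≤ v2.asIdeal)
    (hu : UniqueOver K L v.asIdeal) : UniqueOver K2 L2 v2.asIdeal := by
  intro P Q hP hQ hPv hQv
  have lies : ∀ P : Ideal (𝓞 L2), P.IsPrime →
      v2.asIdeal.map (algebraMap (𝓞 K2) (𝓞 L2)) ≤ P → P.LiesOver v2.asIdeal := by
    intro P hP h
    have h1 : v2.asIdeal ≤ P.under (𝓞 K2) := Ideal.map_le_iff_le_comap.1 h
    exact ⟨v2.isMaximal.eq_of_le (Ideal.IsPrime.ne_top inferInstance) h1⟩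
  have hPl := lies P hP hPv
  have hQl := lies Q hQ hQv
  have hw : ∀ P : Ideal (𝓞 L2), P.LiesOver v2.asIdeal →
      v.asIdeal.map (algebraMap (𝓞 K) (𝓞 L)) ≤ P.under (𝓞 L) := by
    intro P h
    rw [Ideal.map_le_iff_le_comap]
    intro x hx
    show algebraMap (𝓞 L) (𝓞 L2) (algebraMap (𝓞 K) (𝓞 L) x) ∈ P
    have e : algebraMap (𝓞 L) (𝓞 L2) (algebraMap (𝓞 K) (𝓞 L) x) =
        algebraMap (𝓞 K2) (𝓞 L2) (algebraMap (𝓞 K) (𝓞 K2) x) := by
      rw [← IsScalarTower.algebraMap_apply, ← IsScalarTower.algebraMap_apply]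
    rw [e]
    have h2 : algebraMap (𝓞 K) (𝓞 K2) x ∈ v2.asIdeal := hv (Ideal.mem_map_of_mem _ hx)
    rw [h.over] at h2
    exact h2
  have hsub : v2.asIdeal.primesOver (𝓞 L2) ⊆ (P.under (𝓞 L)).primesOver (𝓞 L2) := by
    rintro R ⟨hR, hRl⟩
    refine ⟨hR, ⟨?_⟩⟩
    exact hu _ _ inferInstance inferInstance (hw P hPl) (hw R hRl)
  have hfin : ((P.under (𝓞 L)).primesOver (𝓞 L2)).Finite := by
    have h3 := (Algebra.QuasiFinite.finite_primesOver (S := 𝓞 L2) (P.under (𝓞 L)))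
    exact h3
  have h2 : ((P.under (𝓞 L)).primesOver (𝓞 L2)).ncard ≤ 2 := by
    have h3 := Ideal.ncard_primesOver_mul_ramificationIdxIn_mul_inertiaDegIn (P.under (𝓞 L))
      (𝓞 L2) (L2 ≃ₐ[L] L2)
    rw [IsGalois.card_aut_eq_finrank, Algebra.IsQuadraticExtension.finrank_eq_two L L2] at h3
    exact Nat.le_of_dvd two_pos (Dvd.intro _ h3)
  have h1 : Odd ((v2.asIdeal).primesOver (𝓞 L2)).ncard := by
    have h3 := Ideal.ncard_primesOver_mul_ramificationIdxIn_mul_inertiaDegIn v2.asIdeal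
      (𝓞 L2) (L2 ≃ₐ[K2] L2)
    rw [IsGalois.card_aut_eq_finrank] at h3
    rw [← h3] at hodd
    exact (Nat.odd_mul.1 hodd).1
  have h3 : (v2.asIdeal.primesOver (𝓞 L2)).ncard ≤ 2 :=
    (Set.ncard_le_ncard hsub hfin).trans h2
  have h4 : (v2.asIdeal.primesOver (𝓞 L2)).ncard = 1 := by
    obtain ⟨m, hm⟩ := h1
    omega
  obtain ⟨R, hR⟩ := Set.ncard_eq_one.1 h4
  have e1 : P ∈ v2.asIdeal.primesOver (𝓞 L2) := ⟨hP, hPl⟩
  have e2 : Q ∈ v2.asIdeal.primesOver (𝓞 L2) := ⟨hQ, hQl⟩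
  rw [hR, Set.mem_singleton_iff] at e1 e2
  rw [e1, e2]

end H68QS
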