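import Pool.Agent.H68.QS.Idx
import Pool.Agent.H68.QS.Uni
import Pool.Agent.H68.QS.Gal
import Pool.Agent.H68.QS.Unr
import Pool.Agent.H68.QS.Ext
import Pool.Agent.H68.QS.Sub
import Pool.Agent.H68.QS.Base
import Pool.Agent.H68.QS.Dec

/-!
# MP_78d38b: towers over a field of two-power type, assembly
-/

set_option autoImplicit false
set_option linter.style.haveILetI false

open IsDedekindDomain NumberField WithZero Pool.Agent.H10 H5SW

namespace H68QS

section step

variable {K L K2 L2 : Type} [Field K] [NumberField K] [Field L] [NumberField L]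
  [Field K2] [NumberField K2] [Field L2] [NumberField L2]
  [Algebra K L] [Algebra K K2] [Algebra K L2] [Algebra L L2] [Algebra K2 L2]
  [IsScalarTower K L L2] [IsScalarTower K K2 L2] [Algebra.IsQuadraticExtension K K2]

/-- The quadratic step for the properties of a layer. -/
theorem good_step {D : 𝓞 K} {δ : K2} (hδ : δ ^ 2 = algebraMap K K2 D)
    (hδ' : ∀ r : K, algebraMap K K2 r ≠ δ)
    (hgenL : IntermediateField.adjoin L {algebraMap K2 L2 δ} = ⊤)
    (hgen : IntermediateField.adjoin K2 (Set.range (algebraMap L L2)) = ⊤)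
    (hreal : IsTotallyReal L2) (hunr : Unr2 L2) {M M' : ℤ} (hMM : M ∣ M')
    (hbad : ∀ v : HeightOneSpectrum (𝓞 K), 2 * D ∈ v.asIdeal → (M' : 𝓞 K) ∈ v.asIdeal)
    (G : Good M' K L) : Good M K2 L2 := by
  haveI := G.gal
  have hδL2 : (algebraMap K2 L2 δ) ^ 2 = algebraMap L L2 (algebraMap K L D) := by
    rw [← map_pow, hδ, ← IsScalarTower.algebraMap_apply K K2 L2,
      ← IsScalarTower.algebraMap_apply K L L2]
  have hδL : ∀ r : L, algebraMap L L2 r ≠ algebraMap K2 L2 δ := by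
    intro r hr
    apply no_root G.odd hδ hδ' r
    apply (algebraMap L L2).injective
    rw [map_pow, hr, hδL2]
  haveI : Algebra.IsQuadraticExtension L L2 := quad_of_adjoin hδL2 hδL hgenL
  have hfr : Module.finrank K2 L2 = Module.finrank K L := finrank_up
  haveI hgal : IsGalois K2 L2 := galois_up (K := K) (L := L) hgen
  have hodd : Odd (Module.finrank K2 L2) := by rw [hfr]; exact G.odd
  have below : ∀ v2 : HeightOneSpectrum (𝓞 K2), v2.asIdeal.under (𝓞 K) ≠ ⊥ := fun v2 =>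
    Ideal.IsIntegral.comap_ne_bot _ v2.ne_bot
  refine ⟨hgal, hodd, ?_, ?_, ?_, ?_⟩
  · exact noNewPositive_quad G.odd hδ hδ' (fun v hv => G.bad v (hbad v hv))
      (fun φ => exists_ext_real hreal φ) G.R1
  · exact noNewUnramified_quad G.odd hδ hδ' (fun v hv => G.bad v (hbad v hv)) hunr G.R2
  · intro v2 hv2
    let v : HeightOneSpectrum (𝓞 K) := ⟨v2.asIdeal.under (𝓞 K), inferInstance, below v2⟩
    refine unique_quad (K := K) (L := L) hodd (v := v) Ideal.map_comap_le (G.bad v ?_)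
    change algebraMap (𝓞 K) (𝓞 K2) (M' : 𝓞 K) ∈ v2.asIdeal
    rw [map_intCast]
    obtain ⟨c, rfl⟩ := hMM
    rw [Int.cast_mul]
    exact Ideal.mul_mem_right _ _ hv2
  · rw [hfr]
    rcases G.three with h | h
    · exact Or.inl h
    · right
      intro v2 hv2
      obtain ⟨c, hc⟩ := h ⟨v2.asIdeal.under (𝓞 K), inferInstance, below v2⟩ (by
        change algebraMap (𝓞 K) (𝓞 K2) 2 ∈ v2.asIdeal
        rw [map_ofNat]
        exact hv2)
      refine ⟨algebraMap (𝓞 K) (𝓞 K2) c, ?_⟩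
      have h1 : algebraMap (𝓞 K) (𝓞 K2) (c ^ 3 + c ^ 2 + 1) ∈ v2.asIdeal := hc
      rwa [map_add, map_add, map_pow, map_pow, map_one] at h1

end step

theorem Good.weaken {K L : Type} [Field K] [NumberField K] [Field L] [NumberField L] [Algebra K L]
    {M M' : ℤ} (hMM : M ∣ M') (G : Good M' K L) : Good M K L := by
  refine ⟨G.gal, G.odd, G.R1, G.R2, fun v hv => G.bad v ?_, G.three⟩
  obtain ⟨c, rfl⟩ := hMM
  rw [Int.cast_mul]
  exact Ideal.mul_mem_right _ _ hv

/-- A generator of a quadratic extension with an integral square. -/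
theorem exists_delta {k₁ k : Type} [Field k₁] [NumberField k₁] [Field k] [NumberField k]
    [Algebra k₁ k] (h : Module.finrank k₁ k = 2) :
    ∃ (D : 𝓞 k₁) (δ : k), D ≠ 0 ∧ δ ^ 2 = algebraMap k₁ k D ∧
      IntermediateField.adjoin k₁ {δ} = ⊤ := by
  haveI : Algebra.IsQuadraticExtension k₁ k := ⟨h⟩
  obtain ⟨s, hss, hN, hfix⟩ := exists_invol (L := k₁) (L2 := k)
  obtain ⟨x, hx⟩ : ∃ x : k, ∀ y : k₁, algebraMap k₁ k y ≠ x := by
    by_contra hcon
    push Not at hcon
    have hs : Function.Surjective (algebraMap k₁ k) := fun x => by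
      obtain ⟨y, hy⟩ := hcon x
      exact ⟨y, hy⟩
    have h1 : Module.finrank k₁ k = 1 := by
      have e : k₁ ≃ₗ[k₁] k := LinearEquiv.ofBijective (Algebra.linearMap k₁ k)
        ⟨(algebraMap k₁ k).injective, hs⟩
      rw [← e.finrank_eq, Module.finrank_self]
    omega
  set d := x - s x with hd
  have hsd : s d = -d := by rw [hd, map_sub, hss]; ring
  have hd0 : d ≠ 0 := by
    intro h0
    obtain ⟨y, hy⟩ := hfix x (by rw [hd, sub_eq_zero] at h0; exact h0.symm)
    exact hx y hy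
  obtain ⟨y, hy⟩ := hfix (d ^ 2) (by rw [map_pow, hsd, neg_sq])
  obtain ⟨a, b, hb, hab⟩ := IsFractionRing.div_surjective (A := 𝓞 k₁) y
  have hb0 : b ≠ 0 := nonZeroDivisors.ne_zero hb
  have hbK : (b : k₁) ≠ 0 := RingOfIntegers.coe_ne_zero_iff.mpr hb0
  have hbk : algebraMap k₁ k (b : k₁) ≠ 0 := by rw [Ne, map_eq_zero]; exact hbK
  have hδ0 : algebraMap k₁ k (b : k₁) * d ≠ 0 := mul_ne_zero hbk hd0
  have hsq : (algebraMap k₁ k (b : k₁) * d) ^ 2 = algebraMap k₁ k ((a * b : 𝓞 k₁) : k₁) := by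
    rw [mul_pow, ← hy, ← hab, ← map_pow, ← map_mul]
    congr 1
    change (b : k₁) ^ 2 * ((a : k₁) / (b : k₁)) = ((a * b : 𝓞 k₁) : k₁)
    push_cast
    field_simp
  refine ⟨a * b, algebraMap k₁ k (b : k₁) * d, ?_, hsq, ?_⟩
  · intro h0
    rw [h0] at hsq
    have : ((0 : 𝓞 k₁) : k₁) = 0 := map_zero _
    rw [this, map_zero] at hsq
    exact hδ0 ((pow_eq_zero_iff two_ne_zero).mp hsq)
  · haveI : Fact (Nat.Prime (Module.finrank k₁ k)) := ⟨by rw [h]; exact Nat.prime_two⟩
    haveI := IntermediateField.isSimpleOrder_of_finrank_prime k₁ k (by rw [h]; exact Nat.prime_two)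
    rcases eq_bot_or_eq_top (IntermediateField.adjoin k₁ {algebraMap k₁ k (b : k₁) * d}) with h1 | h1
    · exfalso
      rw [IntermediateField.adjoin_simple_eq_bot_iff, IntermediateField.mem_bot] at h1
      obtain ⟨z, hz⟩ := h1
      have h2 : s (algebraMap k₁ k z) = algebraMap k₁ k z := s.commutes z
      rw [hz, map_mul, s.commutes, hsd] at h2
      have h3 : (2 : k) * (algebraMap k₁ k (b : k₁) * d) = 0 := by linear_combination -h2
      rcases mul_eq_zero.mp h3 with h4 | h4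
      · norm_num at h4
      · exact hδ0 h4
    · exact h1

/-- The chain of quadratic steps. -/
theorem chain {p k0 : ℕ} [Fact p.Prime] (hp2 : p ≠ 2) (hS : NV p k0) : ∀ (n : ℕ) (k : Type) [Field k]
    [NumberField k], Module.finrank ℚ k = n → TwoPower k → ∀ M : ℤ, M ≠ 0 → ∃ N : ℕ,
    ∀ (K' L' K L : Type) [Field K'] [NumberField K'] [Field L'] [NumberField L'] [Field K]
      [NumberField K] [Field L] [NumberField L] [Algebra K' L'] [Algebra K L],
      Nonempty (Comp k K' L' K L) → IsR p L' → (∃ i : ℕ, Module.finrank K' L' = p ^ i) →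
      p ^ N ∣ Module.finrank ℚ K' → IsTotallyReal L → Unr2 L → Good M K L := by
  intro n
  induction n using Nat.strong_induction_on with
  | _ n ih =>
    intro k _ _ hn h2p M hM
    by_cases h1 : n = 1
    · obtain ⟨T, hT⟩ := exists_val_bound (p := p) (D := M.natAbs) (Int.natAbs_ne_zero.mpr hM)
      refine ⟨k0 + T + 1, ?_⟩
      intro K' L' K L _ _ _ _ _ _ _ _ _ _ ⟨C⟩ hL ⟨i, hi⟩ hN _ _
      exact good_base C (hn.trans h1) hp2 hS hM hT hL hi hN
    · obtain ⟨k₁, hk₁⟩ := exists_index_two h2p (by rw [hn]; exact h1)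
      obtain ⟨D, δ, hD0, hδ, hadj⟩ := exists_delta hk₁
      have hlt : Module.finrank ℚ k₁ < n := by
        have h3 := Module.finrank_mul_finrank ℚ k₁ k
        have h4 : 0 < Module.finrank ℚ k₁ := Module.finrank_pos
        rw [hk₁, hn] at h3
        omega
      have h2p₁ : TwoPower k₁ := h2p.of_hom k₁.val.toRingHom
      set nD : ℕ := Ideal.absNorm (Ideal.span {D}) with hnD
      have hnD0 : (nD : ℤ) ≠ 0 := by
        rw [Ne, Nat.cast_eq_zero, hnD, Ideal.absNorm_eq_zero_iff, Ideal.span_singleton_eq_bot]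
        exact hD0
      have hdvd : D ∣ (nD : 𝓞 k₁) := by
        rw [← Ideal.mem_span_singleton]
        exact Ideal.absNorm_mem _
      obtain ⟨N, hN⟩ := ih _ hlt k₁ rfl h2p₁ (2 * nD * M)
        (mul_ne_zero (mul_ne_zero two_ne_zero hnD0) hM)
      refine ⟨N, ?_⟩
      intro K' L' K L _ _ _ _ _ _ _ _ _ _ ⟨C⟩ hL hi hKN hreal hunr
      have hMM : M ∣ 2 * nD * M := dvd_mul_left _ _
      rcases sub_pair C k₁ δ hadj with hC | ⟨K0, L0, _, _, _, _, _, _, _, _, _, _, C₁, hf, hne, hgK,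
        hgL, hgen⟩
      · exact (hN K' L' K L hC hL hi hKN hreal hunr).weaken hMM
      · have G : Good (2 * nD * M) K0 L0 := hN K' L' K0 L0 ⟨C₁⟩ hL hi hKN
          (IsTotallyReal.of_algebra L0 L) (unr_down (L := L) hunr)
        let D0 : 𝓞 K0 := RingOfIntegers.mapRingHom C₁.f D
        have hD0 : (D0 : K0) = C₁.f (D : k₁) := rfl
        have hsq : (C.f δ) ^ 2 = algebraMap K0 K (D0 : K0) := by
          rw [hD0, hf, ← map_pow, hδ]
          rfl
        haveI : Algebra.IsQuadraticExtension K0 K := quad_of_adjoin hsq hne hgK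
        refine good_step (K := K0) (L := L0) (D := D0) hsq hne hgL hgen hreal hunr hMM ?_ G
        intro v hv
        obtain ⟨c, hc⟩ := hdvd
        have h5 : (nD : 𝓞 K0) = D0 * RingOfIntegers.mapRingHom C₁.f c := by
          have := congrArg (RingOfIntegers.mapRingHom C₁.f) hc
          rwa [map_natCast, map_mul] at this
        push_cast
        rw [h5]
        have e : (2 : 𝓞 K0) * (D0 * RingOfIntegers.mapRingHom C₁.f c) * (M : 𝓞 K0) =
            (2 * D0) * (RingOfIntegers.mapRingHom C₁.f c * M) := by ring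
        rw [e]
        exact Ideal.mul_mem_right _ _ hv

/-- The layers of the cyclotomic tower over a field of two-power type. -/
theorem layer_k {p : ℕ} [Fact p.Prime] (hp2 : p ≠ 2) {k : Type} [Field k] [NumberField k]
    (h2p : TwoPower k) (hk : Unr2 k) {M : ℤ} (hM : M ≠ 0) : ∃ N : ℕ,
    ∀ (K L : Type) [Field K] [NumberField K] [Field L] [NumberField L] [Algebra k K] [Algebra k L]
      [Algebra K L] [IsScalarTower k K L],
      (∃ n : ℕ, Nonempty (L →ₐ[k] CyclotomicField (p ^ (n + 1)) k)) → IsTotallyReal L →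
      (∃ i : ℕ, Module.finrank K L = p ^ i) → p ^ N ∣ Module.finrank ℚ K → Good M K L ∧ Unr2 L := by
  obtain ⟨k0, hk0⟩ := sinnott (p := p) hp2
  obtain ⟨N, hN⟩ := chain hp2 hk0 _ k rfl h2p M hM
  refine ⟨N, ?_⟩
  intro K L _ _ _ _ _ _ _ _ ⟨n, ⟨φ⟩⟩ hreal ⟨i, hi⟩ hKN
  have hunr : Unr2 L := unr_cyc hp2 hk φ
  obtain ⟨K', L', _, _, _, _, _, hC, hR, hfr, hdiv⟩ := decompose (K := K) hp2 φ hreal h2p.finrank
  exact ⟨hN K' L' K L hC hR ⟨i, by rw [hfr, hi]⟩ (hdiv N hKN) hreal hunr, hunr⟩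

end H68QS
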