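import Mathlib

/-!
# MP_78d38b: the quadratic step, algebra

`K2 = K(δ)`, `L2 = L(δ)`, `δ² = D ∈ K`, `[L : K]` odd.
-/

set_option autoImplicit false

namespace H68QS

section quad

variable {L L2 : Type*} [Field L] [Field L2] [Algebra L L2] [CharZero L]
  [Algebra.IsQuadraticExtension L L2]

/-- The involution of a quadratic extension. -/
theorem exists_invol : ∃ s : L2 ≃ₐ[L] L2, (∀ x, s (s x) = x) ∧
    (∀ x, algebraMap L L2 (Algebra.norm L x) = x * s x) ∧
    (∀ x, s x = x → ∃ y, algebraMap L L2 y = x) := by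
  classical
  have hc : Nat.card (L2 ≃ₐ[L] L2) = 2 := by
    rw [IsGalois.card_aut_eq_finrank, Algebra.IsQuadraticExtension.finrank_eq_two]
  have hcf : Fintype.card (L2 ≃ₐ[L] L2) = 2 := by rw [← Nat.card_eq_fintype_card, hc]
  obtain ⟨s, hs⟩ : ∃ s : L2 ≃ₐ[L] L2, s ≠ 1 := by
    have : Nontrivial (L2 ≃ₐ[L] L2) := by
      rw [← Fintype.one_lt_card_iff_nontrivial, hcf]
      norm_num
    exact exists_ne 1
  have huniv : (Finset.univ : Finset (L2 ≃ₐ[L] L2)) = {1, s} := by
    symm
    apply Finset.eq_univ_of_card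
    rw [Finset.card_pair (Ne.symm hs), hcf]
  have hall : ∀ g : L2 ≃ₐ[L] L2, g = 1 ∨ g = s := by
    intro g
    have := Finset.mem_univ g
    rw [huniv] at this
    simpa using this
  refine ⟨s, ?_, ?_, ?_⟩
  · intro x
    rcases hall (s * s) with h | h
    · exact congrArg (fun g : L2 ≃ₐ[L] L2 => g x) h
    · exfalso
      exact hs (mul_eq_left.mp h)
  · intro x
    rw [Algebra.norm_eq_prod_automorphisms, huniv, Finset.prod_pair (Ne.symm hs)]
    rfl
  · intro x hx
    have h1 : x ∈ (⊥ : IntermediateField L L2) := by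
      rw [IsGalois.mem_bot_iff_fixed]
      intro g
      rcases hall g with h | h
      · rw [h]; rfl
      · rw [h]; exact hx
    rw [IntermediateField.mem_bot] at h1
    exact h1

/-- If the norm of `x` is a square then `x` is, up to squares, an element of the base. -/
theorem descend_of_norm_sq {x : L2} (hx : x ≠ 0) {y : L} (h : Algebra.norm L x = y ^ 2) :
    ∃ (t : L) (z : L2), t ≠ 0 ∧ z ≠ 0 ∧ x = algebraMap L L2 t * z ^ 2 := by
  obtain ⟨s, hss, hN, hfix⟩ := exists_invol (L := L) (L2 := L2)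
  have hy0 : y ≠ 0 := by
    rintro rfl
    rw [zero_pow two_ne_zero, Algebra.norm_eq_zero_iff] at h
    exact hx h
  have hN' : x * s x = algebraMap L L2 y ^ 2 := by rw [← hN, h, map_pow]
  -- one of the two signs works
  have key : ∀ y' : L, y' ^ 2 = y ^ 2 → x + s x + 2 * algebraMap L L2 y' ≠ 0 →
      ∃ (t : L) (z : L2), t ≠ 0 ∧ z ≠ 0 ∧ x = algebraMap L L2 t * z ^ 2 := by
    intro y' hy' hne
    obtain ⟨t, ht⟩ := hfix (x + s x + 2 * algebraMap L L2 y') (by
      rw [map_add, map_add, hss, map_mul, AlgEquiv.commutes, map_ofNat]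
      ring)
    have ht0 : t ≠ 0 := by
      rintro rfl
      rw [map_zero] at ht
      exact hne ht.symm
    have htL : algebraMap L L2 t ≠ 0 := by rw [ht]; exact hne
    have hsq : (x + algebraMap L L2 y') ^ 2 = x * algebraMap L L2 t := by
      rw [ht]
      have : algebraMap L L2 y' ^ 2 = x * s x := by rw [← map_pow, hy', map_pow, hN']
      linear_combination this
    have hz0 : x + algebraMap L L2 y' ≠ 0 := by
      intro h0
      rw [h0, zero_pow two_ne_zero] at hsq
      exact mul_ne_zero hx htL hsq.symm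
    refine ⟨t, (x + algebraMap L L2 y') / algebraMap L L2 t, ht0, div_ne_zero hz0 htL, ?_⟩
    rw [div_pow, hsq]
    field_simp
  by_cases h1 : x + s x + 2 * algebraMap L L2 y = 0
  · apply key (-y) (by ring)
    intro h2
    rw [map_neg] at h2
    have h3 : (4 : L2) * algebraMap L L2 y = 0 := by linear_combination h1 - h2
    have : CharZero L2 := charZero_of_injective_algebraMap (algebraMap L L2).injective
    rcases mul_eq_zero.mp h3 with h4 | h4
    · norm_num at h4
    · rw [map_eq_zero] at h4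
      exact hy0 h4
  · exact key y rfl h1

end quad

section sq

variable {K K2 : Type*} [Field K] [Field K2] [Algebra K K2] [CharZero K]
  [Algebra.IsQuadraticExtension K K2]

omit [CharZero K] [Algebra.IsQuadraticExtension K K2] in
theorem conj_delta {s : K2 ≃ₐ[K] K2} (hfix : ∀ x, s x = x → ∃ y, algebraMap K K2 y = x) {D : K}
    {δ : K2} (hδ : δ ^ 2 = algebraMap K K2 D) (hδ' : ∀ r : K, algebraMap K K2 r ≠ δ) :
    s δ = -δ := by
  have h1 : (s δ) ^ 2 = δ ^ 2 := by rw [← map_pow, hδ, AlgEquiv.commutes]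
  rcases sq_eq_sq_iff_eq_or_eq_neg.mp h1 with h | h
  · obtain ⟨r, hr⟩ := hfix δ h
    exact absurd hr (hδ' r)
  · exact h

/-- An element of `K` which becomes a square in `K(√D)` is a square or `D` times a square. -/
theorem sq_or_D_mul_sq {D : K} {δ : K2} (hδ : δ ^ 2 = algebraMap K K2 D)
    (hδ' : ∀ r : K, algebraMap K K2 r ≠ δ) {v : K} {e : K2} (hv : algebraMap K K2 v = e ^ 2) :
    (∃ r : K, v = r ^ 2) ∨ ∃ r : K, v = r ^ 2 * D := by
  obtain ⟨s, hss, hN, hfix⟩ := exists_invol (L := K) (L2 := K2)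
  have hsδ := conj_delta hfix hδ hδ'
  have hinj := (algebraMap K K2).injective
  have h1 : (s e) ^ 2 = e ^ 2 := by rw [← map_pow, ← hv, AlgEquiv.commutes]
  rcases sq_eq_sq_iff_eq_or_eq_neg.mp h1 with h | h
  · obtain ⟨r, hr⟩ := hfix e h
    exact Or.inl ⟨r, hinj (by rw [hv, map_pow, hr])⟩
  · have hδ0 : δ ≠ 0 := by
      intro h0
      exact hδ' 0 (by rw [map_zero, h0])
    obtain ⟨r, hr⟩ := hfix (e / δ) (by rw [map_div₀, h, hsδ, neg_div_neg_eq])
    refine Or.inr ⟨r, hinj ?_⟩
    rw [hv, map_mul, map_pow, hr, ← hδ, div_pow]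
    field_simp

end sq

section norm

variable {K L K2 L2 : Type*} [Field K] [Field L] [Field K2] [Field L2] [Algebra K L] [Algebra K K2]
  [Algebra K L2] [Algebra L L2] [Algebra K2 L2] [IsScalarTower K L L2] [IsScalarTower K K2 L2]
  [CharZero K] [FiniteDimensional K L] [FiniteDimensional K2 L2] [CharZero L] [CharZero K2]
  [Algebra.IsQuadraticExtension L L2]

/-- Norms of elements of `L` from `L2` to `K2`. -/
theorem norm_up (hrk : Module.finrank K2 L2 = Module.finrank K L) {D : L} {δ : K2}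
    (hδ : (algebraMap K2 L2 δ) ^ 2 = algebraMap L L2 D)
    (hδ' : ∀ r : L, algebraMap L L2 r ≠ algebraMap K2 L2 δ) (t : L) :
    Algebra.norm K2 (algebraMap L L2 t) = algebraMap K K2 (Algebra.norm K t) := by
  classical
  let Ω := AlgebraicClosure L2
  have : IsScalarTower K L2 Ω := inferInstance
  have : IsScalarTower K2 L2 Ω := inferInstance
  have : IsScalarTower K K2 Ω := IsScalarTower.of_algebraMap_eq fun x => by
    rw [IsScalarTower.algebraMap_apply K2 L2 Ω, ← IsScalarTower.algebraMap_apply K K2 L2,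
      ← IsScalarTower.algebraMap_apply K L2 Ω]
  apply (algebraMap K2 Ω).injective
  rw [← IsScalarTower.algebraMap_apply K K2 Ω, Algebra.norm_eq_prod_embeddings K2 Ω,
    Algebra.norm_eq_prod_embeddings K Ω]
  let R : (L2 →ₐ[K2] Ω) → (L →ₐ[K] Ω) := fun τ =>
    (τ.restrictScalars K).comp (IsScalarTower.toAlgHom K L L2)
  have hR : Function.Injective R := by
    intro τ τ' h
    obtain ⟨s, hss, hN, hfix⟩ := exists_invol (L := L) (L2 := L2)
    have hsδ := conj_delta hfix hδ hδ'
    have hL : ∀ a : L, τ (algebraMap L L2 a) = τ' (algebraMap L L2 a) := fun a =>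
      congrArg (fun g : L →ₐ[K] Ω => g a) h
    have hδ0 : algebraMap K2 L2 δ ≠ 0 := by
      intro h0
      exact hδ' 0 (by rw [map_zero, h0])
    have : CharZero L2 := charZero_of_injective_algebraMap (algebraMap L L2).injective
    ext w
    obtain ⟨a, ha⟩ := hfix ((w + s w) / 2) (by rw [map_div₀, map_add, hss, map_ofNat]; ring)
    obtain ⟨b, hb⟩ := hfix ((w - s w) / (2 * algebraMap K2 L2 δ)) (by
      rw [map_div₀, map_sub, hss, map_mul, hsδ, map_ofNat, mul_neg, div_neg, ← neg_div]
      ring)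
    have hw : w = algebraMap L L2 a + algebraMap L L2 b * algebraMap K2 L2 δ := by
      rw [ha, hb]
      field_simp
      ring
    rw [hw, map_add, map_mul, map_add, map_mul, hL, hL, AlgHom.commutes, AlgHom.commutes]
  have hcard : Fintype.card (L2 →ₐ[K2] Ω) = Fintype.card (L →ₐ[K] Ω) := by
    rw [AlgHom.card, AlgHom.card, hrk]
  have hbij : Function.Bijective R :=
    (Fintype.bijective_iff_injective_and_card R).mpr ⟨hR, hcard⟩
  exact Fintype.prod_bijective R hbij _ _ (fun τ => rfl)

end norm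

end H68QS
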