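import Pool.Agent.H10.StarGal
import Pool.Agent.H68.QS.Alg

/-!
# MP_78d38b: the quadratic step, valuations
-/

set_option autoImplicit false
set_option linter.style.haveILetI false

open IsDedekindDomain NumberField WithZero Pool.Agent.H10

namespace H68QS

section

variable {L L2 : Type} [Field L] [NumberField L] [Field L2] [NumberField L2] [Algebra L L2]

lemma exists_over (w : HeightOneSpectrum (𝓞 L)) :
    ∃ W : HeightOneSpectrum (𝓞 L2), W.asIdeal.LiesOver w.asIdeal := by
  obtain ⟨P, hP, hPw⟩ := (Ideal.nonempty_primesOver (S := 𝓞 L2) w.asIdeal)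
  exact ⟨⟨P, hP, Ideal.ne_bot_of_mem_primesOver w.ne_bot ⟨hP, hPw⟩⟩, hPw⟩

/-- The ideal of an element with even valuations is a square. -/
lemma exists_ideal_sq {y : 𝓞 L2} (hy : y ≠ 0)
    (hev : ∀ v : HeightOneSpectrum (𝓞 L2), Even (log (v.valuation L2 (y : L2)))) :
    ∃ J : Ideal (𝓞 L2), J ^ 2 = Ideal.span {y} := by
  classical
  have hI : Ideal.span {y} ≠ 0 := by
    rw [Ideal.zero_eq_bot, Ne, Ideal.span_singleton_eq_bot]; exact hy
  obtain ⟨u, hu⟩ := Multiset.exists_smul_of_dvd_count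
    (UniqueFactorizationMonoid.normalizedFactors (Ideal.span {y})) (k := 2)
    (by
      intro P hP
      have hirr := UniqueFactorizationMonoid.irreducible_of_normalized_factor P hP
      have hpr : Prime P := hirr.prime
      have hev' := hev ⟨P, Ideal.isPrime_of_prime hpr, hpr.ne_zero⟩
      change Even (log (HeightOneSpectrum.valuation L2 _ (algebraMap (𝓞 L2) L2 y))) at hev'
      rw [HeightOneSpectrum.valuation_of_algebraMap,
        HeightOneSpectrum.intValuation_eq_exp_neg_multiplicity _ hy, log_exp, even_neg] at hev'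
      have h1 : Even (multiplicity P (Ideal.span {y})) := by exact_mod_cast hev'
      rw [UniqueFactorizationMonoid.multiplicity_eq_count_normalizedFactors hirr hI,
        normalize_eq] at h1
      exact h1.two_dvd)
  refine ⟨u.prod, ?_⟩
  rw [← Multiset.prod_nsmul, ← hu]
  exact Ideal.prod_normalizedFactors_eq_self hI

lemma even_of_ideal_sq {y : 𝓞 L} (hy : y ≠ 0) {J : Ideal (𝓞 L)} (h : J ^ 2 = Ideal.span {y})
    (w : HeightOneSpectrum (𝓞 L)) : Even (log (w.valuation L (y : L))) := by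
  classical
  have hI : Ideal.span {y} ≠ 0 := by
    rw [Ideal.zero_eq_bot, Ne, Ideal.span_singleton_eq_bot]; exact hy
  have hJ : J ≠ 0 := by
    intro h0
    rw [h0, zero_pow two_ne_zero] at h
    exact hI h.symm
  change Even (log (w.valuation L (algebraMap (𝓞 L) L y)))
  rw [w.valuation_of_algebraMap, w.intValuation_eq_exp_neg_multiplicity hy, log_exp, even_neg]
  have h1 : multiplicity w.asIdeal (Ideal.span {y}) = 2 * multiplicity w.asIdeal J := by
    have hf : FiniteMultiplicity w.asIdeal J := FiniteMultiplicity.of_prime_left w.prime hJ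
    rw [← h, hf.multiplicity_pow w.prime]
  rw [h1]
  push_cast
  exact even_two_mul _

/-- The norm of an element with even valuations has even valuations. -/
theorem even_norm {x : L2} (hx : x ≠ 0)
    (hev : ∀ v : HeightOneSpectrum (𝓞 L2), Even (log (v.valuation L2 x)))
    (w : HeightOneSpectrum (𝓞 L)) : Even (log (w.valuation L (Algebra.norm L x))) := by
  obtain ⟨a, b, hb, rfl⟩ := IsFractionRing.div_surjective (A := 𝓞 L2) x
  have hb0 : b ≠ 0 := nonZeroDivisors.ne_zero hb
  have ha0 : a ≠ 0 := by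
    rintro rfl
    apply hx
    simp
  have haK : (a : L2) ≠ 0 := RingOfIntegers.coe_ne_zero_iff.mpr ha0
  have hbK : (b : L2) ≠ 0 := RingOfIntegers.coe_ne_zero_iff.mpr hb0
  have hab : a * b ≠ 0 := mul_ne_zero ha0 hb0
  have e1 : ((a * b : 𝓞 L2) : L2) = (algebraMap (𝓞 L2) L2 a / algebraMap (𝓞 L2) L2 b) *
      (b : L2) ^ 2 := by
    change ((a * b : 𝓞 L2) : L2) = ((a : L2) / (b : L2)) * (b : L2) ^ 2
    push_cast
    field_simp
  obtain ⟨J, hJ⟩ := exists_ideal_sq hab (fun v => by
    rw [e1, map_mul, map_pow, log_mul ((Valuation.ne_zero_iff _).mpr hx)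
      (pow_ne_zero _ ((Valuation.ne_zero_iff _).mpr hbK)), log_pow]
    refine (hev v).add ?_
    rw [nsmul_eq_mul]
    exact even_two_mul _)
  have hn0 : Algebra.intNorm (𝓞 L) (𝓞 L2) (a * b) ≠ 0 := by
    rw [Ne, Algebra.intNorm_eq_zero]
    exact hab
  have h2 := even_of_ideal_sq (L := L) hn0 (J := Ideal.relNorm (𝓞 L) J) (by
    rw [← map_pow, hJ, Ideal.relNorm_singleton]) w
  change Even (log (w.valuation L (algebraMap (𝓞 L) L _))) at h2
  rw [Algebra.algebraMap_intNorm (A := 𝓞 L) (K := L) (L := L2) (B := 𝓞 L2)] at h2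
  change Even (log (w.valuation L (Algebra.norm L ((a * b : 𝓞 L2) : L2)))) at h2
  rw [e1, map_mul, map_pow, map_mul, map_pow] at h2
  have hnx : Algebra.norm L (algebraMap (𝓞 L2) L2 a / algebraMap (𝓞 L2) L2 b) ≠ 0 := by
    rw [Ne, Algebra.norm_eq_zero_iff]; exact hx
  have hnb : Algebra.norm L (b : L2) ≠ 0 := by
    rw [Ne, Algebra.norm_eq_zero_iff]; exact hbK
  rw [log_mul ((Valuation.ne_zero_iff _).mpr hnx)
    (pow_ne_zero _ ((Valuation.ne_zero_iff _).mpr hnb)), log_pow, nsmul_eq_mul] at h2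
  have h3 := h2.sub (even_two_mul (log (w.valuation L (Algebra.norm L (b : L2)))))
  push_cast at h3
  rwa [add_sub_cancel_right] at h3

end

section quad

variable {L L2 : Type} [Field L] [NumberField L] [Field L2] [NumberField L2] [Algebra L L2]
  [Algebra.IsQuadraticExtension L L2]

/-- Away from `2 D` the ramification index is odd. -/
theorem odd_ram {D : L} {δ : L2} (hδ : δ ^ 2 = algebraMap L L2 D)
    (hδ' : ∀ r : L, algebraMap L L2 r ≠ δ) {w : HeightOneSpectrum (𝓞 L)}
    {W : HeightOneSpectrum (𝓞 L2)} [W.asIdeal.LiesOver w.asIdeal]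
    (h2 : W.valuation L2 2 = 1) (hD : W.valuation L2 (algebraMap L L2 D) = 1) :
    Odd (w.asIdeal.ramificationIdx' W.asIdeal) := by
  by_contra hne
  rw [Nat.not_odd_iff_even] at hne
  obtain ⟨s, hss, hN, hfix⟩ := exists_invol (L := L) (L2 := L2)
  have hsδ := conj_delta hfix hδ hδ'
  set V := W.valuation L2 with hV
  have hevL : ∀ y : L, Even (log (V (algebraMap L L2 y))) := by
    intro y
    rw [hV, ← HeightOneSpectrum.valuation_liesOver (K := L) L2 w W, log_pow, nsmul_eq_mul]
    obtain ⟨k, hk⟩ := hne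
    rw [hk]
    push_cast
    exact ⟨(k : ℤ) * log (w.valuation L y), by ring⟩
  have hVδ : V δ = 1 := by
    have h1 : V δ ^ 2 = 1 := by rw [← map_pow, hδ, hD]
    exact (pow_eq_one_iff_of_nonneg (zero_le) two_ne_zero).mp h1
  have hδ0 : δ ≠ 0 := by
    intro h0
    exact hδ' 0 (by rw [map_zero, h0])
  obtain ⟨q0, hq⟩ := W.valuation_surjective L2 (exp (-1 : ℤ))
  have hq0 : q0 ≠ 0 := by
    rintro rfl
    rw [map_zero] at hq
    exact exp_ne_zero hq.symm
  have hsq0 : s q0 ≠ 0 := by rw [Ne, map_eq_zero]; exact hq0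
  have hl : log (V q0) = -1 := by rw [hV, hq, log_exp]
  have vq := (Valuation.ne_zero_iff V).mpr hq0
  have vsq := (Valuation.ne_zero_iff V).mpr hsq0
  have hls : Odd (log (V (s q0))) := by
    have h1 := hevL (Algebra.norm L q0)
    rw [hN, map_mul, log_mul vq vsq, hl] at h1
    rw [← Int.not_even_iff_odd]
    intro h3
    have h4 := h1.sub h3
    rw [add_sub_cancel_right] at h4
    exact absurd h4 (by decide)
  -- sum and difference
  obtain ⟨a, ha⟩ := hfix (q0 + s q0) (by rw [map_add, hss, add_comm])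
  obtain ⟨b, hb⟩ := hfix ((q0 - s q0) / δ) (by
    rw [map_div₀, map_sub, hss, hsδ, div_neg, ← neg_div, neg_sub])
  have hb' : q0 - s q0 = algebraMap L L2 b * δ := by rw [hb]; field_simp
  have hS : Even (log (V (q0 + s q0))) := by rw [← ha]; exact hevL a
  have hDf : Even (log (V (q0 - s q0))) := by
    rw [hb']
    by_cases hb0 : b = 0
    · rw [hb0, map_zero, zero_mul, map_zero, log_zero]; exact Even.zero
    · rw [map_mul, hVδ, mul_one]; exact hevL b
  -- values are equal
  have hne1 : V (q0 + s q0) ≠ V q0 := by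
    intro h
    rw [h, hl] at hS
    exact absurd hS (by decide)
  have hne2 : V (q0 - s q0) ≠ V q0 := by
    intro h
    rw [h, hl] at hDf
    exact absurd hDf (by decide)
  have h2q : V ((q0 + s q0) + (q0 - s q0)) = V q0 := by
    have : (q0 + s q0) + (q0 - s q0) = 2 * q0 := by ring
    rw [this, map_mul, h2, one_mul]
  have heq : V (q0 + s q0) = V (q0 - s q0) := by
    by_contra hcon
    rcases lt_or_gt_of_ne hcon with h | h
    · rw [Valuation.map_add_eq_of_lt_right _ h] at h2q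
      exact hne2 h2q
    · rw [Valuation.map_add_eq_of_lt_left _ h] at h2q
      exact hne1 h2q
  have hlt1 : V q0 < V (q0 + s q0) := by
    refine lt_of_le_of_ne ?_ (Ne.symm hne1)
    rw [← h2q]
    refine (Valuation.map_add _ _ _).trans (max_le le_rfl heq.ge)
  have h2s : V ((q0 + s q0) - (q0 - s q0)) = V (s q0) := by
    have : (q0 + s q0) - (q0 - s q0) = 2 * s q0 := by ring
    rw [this, map_mul, h2, one_mul]
  have hne3 : V (s q0) ≠ V (q0 + s q0) := by
    intro h
    rw [← h] at hS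
    exact (Int.not_even_iff_odd.mpr hls) hS
  have hlt2 : V (s q0) < V (q0 + s q0) := by
    refine lt_of_le_of_ne ?_ hne3
    rw [← h2s]
    refine (Valuation.map_sub _ _ _).trans (max_le le_rfl heq.ge)
  have h5 : V (q0 + s q0) < V (q0 + s q0) :=
    (Valuation.map_add _ _ _).trans_lt (max_lt hlt1 hlt2)
  exact lt_irrefl _ h5

end quad

section two

variable {L : Type} [Field L] [NumberField L]

/-- Square roots modulo a prime above two. -/
theorem exists_sqrt_mod {w : HeightOneSpectrum (𝓞 L)} (h2 : (2 : 𝓞 L) ∈ w.asIdeal) {u : L}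
    (hu : w.valuation L u = 1) :
    ∃ m : L, w.valuation L m = 1 ∧ w.valuation L (u - m ^ 2) < 1 := by
  obtain ⟨n, ⟨d, hd⟩, hnd⟩ := HeightOneSpectrum.exists_primeCompl_mul_eq_of_integer w u hu.le
  change d ∉ w.asIdeal at hd
  change u * algebraMap (𝓞 L) L d = algebraMap (𝓞 L) L n at hnd
  have hd1 : w.valuation L (algebraMap (𝓞 L) L d) = 1 :=
    (w.valuation_eq_one_iff_notMem (K := L)).mpr hd
  have hmax : w.asIdeal.IsMaximal := w.isMaximal
  letI : Field (𝓞 L ⧸ w.asIdeal) := Ideal.Quotient.field _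
  haveI : Finite (𝓞 L ⧸ w.asIdeal) := Ideal.finiteQuotientOfFreeOfNeBot _ w.ne_bot
  haveI : CharP (𝓞 L ⧸ w.asIdeal) 2 := by
    refine CharTwo.of_one_ne_zero_of_two_eq_zero one_ne_zero ?_
    have := (Ideal.Quotient.eq_zero_iff_mem (I := w.asIdeal)).mpr h2
    rwa [map_ofNat] at this
  haveI : Fintype (𝓞 L ⧸ w.asIdeal) := Fintype.ofFinite _
  obtain ⟨r, hr⟩ := FiniteField.isSquare_of_char_two (F := 𝓞 L ⧸ w.asIdeal)
    (by rw [ringChar.eq_iff]; infer_instance)
    (Ideal.Quotient.mk w.asIdeal n / Ideal.Quotient.mk w.asIdeal d)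
  obtain ⟨m, rfl⟩ := Ideal.Quotient.mk_surjective r
  have hd0 : Ideal.Quotient.mk w.asIdeal d ≠ 0 := by
    rw [Ne, Ideal.Quotient.eq_zero_iff_mem]; exact hd
  have h3 : n - m ^ 2 * d ∈ w.asIdeal := by
    rw [← Ideal.Quotient.eq_zero_iff_mem, map_sub, map_mul, map_pow, pow_two, ← hr,
      div_mul_cancel₀ _ hd0, sub_self]
  have h4 : w.valuation L (algebraMap (𝓞 L) L (n - m ^ 2 * d)) < 1 :=
    (w.valuation_lt_one_iff_mem _).mpr h3
  have h5 : w.valuation L (u - (algebraMap (𝓞 L) L m) ^ 2) < 1 := by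
    have e : algebraMap (𝓞 L) L (n - m ^ 2 * d) =
        (u - (algebraMap (𝓞 L) L m) ^ 2) * algebraMap (𝓞 L) L d := by
      rw [map_sub, map_mul, map_pow, ← hnd]; ring
    rw [e, map_mul, hd1, mul_one] at h4
    exact h4
  refine ⟨algebraMap (𝓞 L) L m, ?_, h5⟩
  have h6 : w.valuation L ((algebraMap (𝓞 L) L m) ^ 2) = 1 := by
    have e : (algebraMap (𝓞 L) L m) ^ 2 = u - (u - (algebraMap (𝓞 L) L m) ^ 2) := by ring
    rw [e, Valuation.map_sub_eq_of_lt_left _ (by rw [hu]; exact h5), hu]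
  rw [map_pow] at h6
  exact (pow_eq_one_iff_of_nonneg (zero_le) two_ne_zero).mp h6

variable {L2 : Type} [Field L2] [NumberField L2] [Algebra L L2]

/-- Descent of the local condition at a place above two, unramified. -/
theorem descend_two {w : HeightOneSpectrum (𝓞 L)} {W : HeightOneSpectrum (𝓞 L2)}
    [W.asIdeal.LiesOver w.asIdeal] (h2 : W.valuation L2 2 = exp (-1 : ℤ)) {y : L} (hy : y ≠ 0)
    (hev : Even (log (W.valuation L2 (algebraMap L L2 y))))
    (h : ∃ t m : L2, t ≠ 0 ∧ W.valuation L2 m = 1 ∧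
      W.valuation L2 (algebraMap L L2 y * t ^ 2 - m ^ 2) ≤ W.valuation L2 4) :
    ∃ t m : L, t ≠ 0 ∧ w.valuation L m = 1 ∧
      w.valuation L (y * t ^ 2 - m ^ 2) ≤ w.valuation L 4 := by
  obtain ⟨t, m, ht, hm, h⟩ := h
  set V := W.valuation L2 with hV
  -- the ramification index is one
  have he : w.asIdeal.ramificationIdx' W.asIdeal = 1 := by
    have h1 := HeightOneSpectrum.valuation_liesOver (K := L) L2 w W (2 : L)
    have e : algebraMap L L2 2 = 2 := map_ofNat _ 2
    rw [e, h2] at h1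
    have h3 := congrArg log h1
    rw [log_pow, log_exp, nsmul_eq_mul] at h3
    have h4 : ((w.asIdeal.ramificationIdx' W.asIdeal : ℕ) : ℤ) ∣ 1 := by
      rw [← dvd_neg]
      exact ⟨_, h3.symm⟩
    have h5 := Int.natCast_dvd_natCast.mp (by exact_mod_cast h4 : ((w.asIdeal.ramificationIdx' W.asIdeal : ℕ) : ℤ) ∣ ((1 : ℕ) : ℤ))
    exact Nat.dvd_one.mp h5
  have hVv : ∀ x : L, V (algebraMap L L2 x) = w.valuation L x := by
    intro x
    rw [hV, ← HeightOneSpectrum.valuation_liesOver (K := L) L2 w W, he, pow_one]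
  have hv2 : w.valuation L 2 = exp (-1 : ℤ) := by
    have e : algebraMap L L2 2 = 2 := map_ofNat _ 2
    rw [← hVv, e, h2]
  have h2mem : (2 : 𝓞 L) ∈ w.asIdeal := by
    have h3 : w.valuation L (algebraMap (𝓞 L) L 2) < 1 := by
      have e : algebraMap (𝓞 L) L 2 = 2 := map_ofNat _ 2
      rw [e, hv2, ← exp_zero, exp_lt_exp]; norm_num
    exact (w.valuation_lt_one_iff_mem _).mp h3
  have hV4 : V 4 = exp (-1 : ℤ) * exp (-1 : ℤ) := by
    have : (4 : L2) = 2 * 2 := by norm_num
    rw [this, map_mul, h2]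
  rw [hVv] at hev
  obtain ⟨k, hk⟩ := hev
  obtain ⟨t₀, ht₀⟩ := w.valuation_surjective L (exp (-k))
  have ht₀0 : t₀ ≠ 0 := by
    rintro rfl
    rw [map_zero] at ht₀
    exact exp_ne_zero ht₀.symm
  have vy := (Valuation.ne_zero_iff (w.valuation L)).mpr hy
  have hu : w.valuation L (y * t₀ ^ 2) = 1 := by
    rw [map_mul, map_pow, ht₀, ← exp_log vy, hk, pow_two, ← exp_add, ← exp_add, ← exp_zero]
    congr 1
    ring
  obtain ⟨m₀, hm₀, hum⟩ := exists_sqrt_mod h2mem hu
  set u := y * t₀ ^ 2 with hu'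
  -- values below one are at most the value of two
  have hstep : ∀ x : L2, V x < 1 → V x ≤ exp (-1 : ℤ) := by
    intro x hx
    by_cases hx0 : x = 0
    · rw [hx0, map_zero]; exact zero_le
    · have vx := (Valuation.ne_zero_iff V).mpr hx0
      rw [← exp_log vx] at hx ⊢
      rw [← exp_zero, exp_lt_exp] at hx
      rw [exp_le_exp]
      omega
  have hlt1 : exp (-1 : ℤ) < (1 : WithZero (Multiplicative ℤ)) := by
    rw [← exp_zero, exp_lt_exp]; norm_num
  have h41 : V 4 < 1 := by
    rw [hV4]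
    calc exp (-1 : ℤ) * exp (-1 : ℤ) ≤ exp (-1 : ℤ) * 1 := mul_le_mul_right hlt1.le _
      _ < 1 := by rw [mul_one]; exact hlt1
  set y' := algebraMap L L2 y with hy'
  set u' := algebraMap L L2 u with hu''
  set t' := algebraMap L L2 t₀ with ht'
  set m' := algebraMap L L2 m₀ with hm'
  have ht'0 : t' ≠ 0 := by rw [ht', Ne, map_eq_zero]; exact ht₀0
  have hVu : V u' = 1 := by rw [hu'', hVv]; exact hu
  have hVm' : V m' = 1 := by rw [hm', hVv]; exact hm₀
  have huy : u' = y' * t' ^ 2 := by rw [hu'', hu', map_mul, map_pow]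
  have hVum : V (u' - m' ^ 2) ≤ exp (-1 : ℤ) := by
    apply hstep
    have : u' - m' ^ 2 = algebraMap L L2 (u - m₀ ^ 2) := by rw [map_sub, map_pow]
    rw [this, hVv]
    exact hum
  set T := t / t' with hT
  have hyT : y' * t ^ 2 = u' * T ^ 2 := by rw [hT, huy]; field_simp
  have hVuT : V (u' * T ^ 2) = 1 := by
    rw [← hyT]
    have : y' * t ^ 2 = (y' * t ^ 2 - m ^ 2) + m ^ 2 := by ring
    rw [this, Valuation.map_add_eq_of_lt_right, map_pow, hm, one_pow]
    rw [map_pow, hm, one_pow]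
    exact h.trans_lt h41
  have hVT : V T = 1 := by
    rw [map_mul, hVu, one_mul, map_pow] at hVuT
    exact (pow_eq_one_iff_of_nonneg (zero_le) two_ne_zero).mp hVuT
  have hT0 : T ≠ 0 := by
    intro h0
    rw [h0, map_zero] at hVT
    exact zero_ne_one hVT
  set M := m / T with hM
  have hVM : V M = 1 := by rw [hM, map_div₀, hm, hVT, div_one]
  have huM : V (u' - M ^ 2) ≤ V 4 := by
    have : u' - M ^ 2 = (y' * t ^ 2 - m ^ 2) / T ^ 2 := by
      rw [hyT, hM]; field_simp
    rw [this, map_div₀, map_pow, hVT, one_pow, div_one]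
    exact h
  have hV42 : V 4 ≤ exp (-1 : ℤ) := hstep _ h41
  have hMm : V (M ^ 2 - m' ^ 2) ≤ exp (-1 : ℤ) := by
    have : M ^ 2 - m' ^ 2 = (u' - m' ^ 2) - (u' - M ^ 2) := by ring
    rw [this]
    exact (Valuation.map_sub _ _ _).trans (max_le hVum (huM.trans hV42))
  have hMm1 : V (M - m') ≤ 1 :=
    (Valuation.map_sub _ _ _).trans (max_le hVM.le hVm'.le)
  have hMm2 : V ((M - m') ^ 2) ≤ exp (-1 : ℤ) := by
    have : (M - m') ^ 2 = (M ^ 2 - m' ^ 2) - 2 * (m' * (M - m')) := by ring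
    rw [this]
    refine (Valuation.map_sub _ _ _).trans (max_le hMm ?_)
    rw [map_mul, map_mul, h2, hVm', one_mul]
    calc exp (-1 : ℤ) * V (M - m') ≤ exp (-1 : ℤ) * 1 := mul_le_mul_right hMm1 _
      _ = _ := mul_one _
  have hMm3 : V (M - m') ≤ exp (-1 : ℤ) := by
    apply hstep
    by_contra hcon
    have h1 : V (M - m') = 1 := le_antisymm hMm1 (not_lt.mp hcon)
    rw [map_pow, h1, one_pow] at hMm2
    exact absurd hMm2 (not_le.mpr hlt1)
  have hMp : V (M + m') ≤ exp (-1 : ℤ) := by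
    have : M + m' = (M - m') + 2 * m' := by ring
    rw [this]
    refine (Valuation.map_add _ _ _).trans (max_le hMm3 ?_)
    rw [map_mul, h2, hVm', mul_one]
  have hfin : V (u' - m' ^ 2) ≤ V 4 := by
    have : u' - m' ^ 2 = (u' - M ^ 2) + (M - m') * (M + m') := by ring
    rw [this]
    refine (Valuation.map_add _ _ _).trans (max_le huM ?_)
    rw [map_mul, hV4]
    exact mul_le_mul' hMm3 hMp
  refine ⟨t₀, m₀, ht₀0, hm₀, ?_⟩
  have e4 : algebraMap L L2 4 = 4 := map_ofNat _ 4
  rw [← hVv, ← hVv, e4, map_sub, map_pow]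
  exact hfin

end two

end H68QS
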