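import Pool.Agent.H10.Star
import Pool.Agent.H68.QS.Val

/-!
# MP_78d38b: the quadratic step

If `[L : K]` is odd, `K2 = K(√D)`, `L2 = L(√D)` and all primes of `K` dividing `2 D` have a single
prime above them in `L`, then the two conditions on new classes pass from `L / K` to `L2 / K2`.
-/

set_option autoImplicit false
set_option linter.style.haveILetI false

open IsDedekindDomain NumberField WithZero Pool.Agent.H10

namespace H68QS

section

variable {K L K2 L2 : Type} [Field K] [NumberField K] [Field L] [NumberField L]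
  [Field K2] [NumberField K2] [Field L2] [NumberField L2]
  [Algebra K L] [Algebra K K2] [Algebra K L2] [Algebra L L2] [Algebra K2 L2]
  [IsScalarTower K L L2] [IsScalarTower K K2 L2]
  [Algebra.IsQuadraticExtension K K2] [Algebra.IsQuadraticExtension L L2]

omit [NumberField K2] [Field L2] [NumberField L2] [Algebra K L2] [Algebra L L2] [Algebra K2 L2]
  [IsScalarTower K L L2] [IsScalarTower K K2 L2] [Algebra.IsQuadraticExtension L L2]
  [Algebra.IsQuadraticExtension K K2] in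
lemma no_root (hodd : Odd (Module.finrank K L)) {D : K} {δ : K2} (hδ : δ ^ 2 = algebraMap K K2 D)
    (hδ' : ∀ r : K, algebraMap K K2 r ≠ δ) (r : L) : r ^ 2 ≠ algebraMap K L D := by
  intro h
  have hD0 : D ≠ 0 := by
    rintro rfl
    rw [map_zero] at hδ
    exact hδ' 0 (by rw [map_zero]; exact (pow_eq_zero_iff two_ne_zero).mp hδ |>.symm)
  have h1 := congrArg (Algebra.norm K) h
  rw [map_pow, Algebra.norm_algebraMap] at h1
  obtain ⟨n, hn⟩ := hodd
  have h1' : Algebra.norm K r ^ 2 = (D ^ n) ^ 2 * D := by rw [h1, hn]; ring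
  set q := Algebra.norm K r / D ^ n with hq
  have hq2 : q ^ 2 = D := by
    rw [hq, div_pow, h1']
    field_simp
  have h2 : δ ^ 2 = (algebraMap K K2 q) ^ 2 := by rw [hδ, ← map_pow, hq2]
  rcases sq_eq_sq_iff_eq_or_eq_neg.mp h2 with h3 | h3
  · exact hδ' q h3.symm
  · exact hδ' (-q) (by rw [map_neg, h3])

omit [NumberField K] [NumberField L] [NumberField K2] [NumberField L2]
  [IsScalarTower K L L2] [IsScalarTower K K2 L2] in
lemma finrank_up [IsScalarTower K L L2] [IsScalarTower K K2 L2] :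
    Module.finrank K2 L2 = Module.finrank K L := by
  have h1 := Module.finrank_mul_finrank K K2 L2
  have h2 := Module.finrank_mul_finrank K L L2
  rw [Algebra.IsQuadraticExtension.finrank_eq_two] at h1
  rw [Algebra.IsQuadraticExtension.finrank_eq_two (R := L) (S := L2)] at h2
  omega

/-- The norm to `L` has a square norm to `K`. -/
lemma norm_norm_sq {x : L2} (hN : IsSquare (Algebra.norm K2 x)) :
    IsSquare (Algebra.norm K (Algebra.norm L x)) := by
  obtain ⟨e, he⟩ := hN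
  refine ⟨Algebra.norm K e, ?_⟩
  rw [Algebra.norm_norm, ← Algebra.norm_norm (S := K2), he, map_mul]

/-- Descent to the base, given that the norm is a square. -/
theorem core (hodd : Odd (Module.finrank K L)) {D : 𝓞 K} {δ : K2}
    (hδ : δ ^ 2 = algebraMap K K2 D) (hδ' : ∀ r : K, algebraMap K K2 r ≠ δ)
    (hbad : ∀ v : HeightOneSpectrum (𝓞 K), 2 * D ∈ v.asIdeal → UniqueOver K L v.asIdeal)
    {x : L2} (hx : x ≠ 0) (hev : ∀ w : HeightOneSpectrum (𝓞 L2), Even (log (w.valuation L2 x)))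
    (hN : IsSquare (Algebra.norm K2 x)) (hsq : IsSquare (Algebra.norm L x)) :
    ∃ (t : L) (z : L2), t ≠ 0 ∧ z ≠ 0 ∧ x = algebraMap L L2 t * z ^ 2 ∧
      IsSquare (Algebra.norm K t) ∧
      ∀ w : HeightOneSpectrum (𝓞 L), Even (log (w.valuation L t)) := by
  have hD0 : (D : K) ≠ 0 := by
    intro h0
    rw [h0, map_zero] at hδ
    exact hδ' 0 (by rw [map_zero]; exact (pow_eq_zero_iff two_ne_zero).mp hδ |>.symm)
  have hδ0 : δ ≠ 0 := by
    intro h0
    exact hδ' 0 (by rw [map_zero, h0])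
  have hδL2 : (algebraMap K2 L2 δ) ^ 2 = algebraMap L L2 (algebraMap K L D) := by
    rw [← map_pow, hδ, ← IsScalarTower.algebraMap_apply K K2 L2,
      ← IsScalarTower.algebraMap_apply K L L2]
  have hδL : ∀ r : L, algebraMap L L2 r ≠ algebraMap K2 L2 δ := by
    intro r hr
    apply no_root hodd hδ hδ' r
    apply (algebraMap L L2).injective
    rw [map_pow, hr, hδL2]
  have hdL0 : algebraMap K2 L2 δ ≠ 0 := by rw [Ne, map_eq_zero]; exact hδ0
  -- first form
  obtain ⟨y, hy⟩ := hsq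
  obtain ⟨t, z, ht, hz, hxt⟩ := descend_of_norm_sq (L := L) hx (y := y) (by rw [hy, pow_two])
  have hNt : ∃ e : K2, algebraMap K K2 (Algebra.norm K t) = e ^ 2 := by
    obtain ⟨e, he⟩ := hN
    rw [← norm_up (K := K) (L := L) (K2 := K2) (L2 := L2) finrank_up hδL2 hδL]
    have hNz : Algebra.norm K2 z ≠ 0 := by rw [Ne, Algebra.norm_eq_zero_iff]; exact hz
    rw [hxt, map_mul, map_pow] at he
    refine ⟨e / Algebra.norm K2 z, ?_⟩
    rw [div_pow, pow_two e, ← he]
    field_simp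
  obtain ⟨e, he⟩ := hNt
  -- second form
  have key : ∃ (t : L) (z : L2), t ≠ 0 ∧ z ≠ 0 ∧ x = algebraMap L L2 t * z ^ 2 ∧
      IsSquare (Algebra.norm K t) := by
    rcases sq_or_D_mul_sq hδ hδ' he with ⟨r, hr⟩ | ⟨r, hr⟩
    · exact ⟨t, z, ht, hz, hxt, ⟨r, by rw [hr, pow_two]⟩⟩
    · refine ⟨t * algebraMap K L D, z / algebraMap K2 L2 δ, mul_ne_zero ht ?_,
        div_ne_zero hz hdL0, ?_, ?_⟩
      · rw [Ne, map_eq_zero]; exact hD0
      · have hD' : algebraMap L L2 (algebraMap K L D) ≠ 0 := by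
          rw [← hδL2]; exact pow_ne_zero 2 hdL0
        rw [hxt, map_mul, div_pow, hδL2]
        field_simp
      · obtain ⟨n, hn⟩ := hodd
        refine ⟨r * (D : K) ^ (n + 1), ?_⟩
        rw [map_mul, Algebra.norm_algebraMap, hr, hn]
        ring
  obtain ⟨t, z, ht, hz, hxt, hNt⟩ := key
  refine ⟨t, z, ht, hz, hxt, hNt, ?_⟩
  intro w
  have hbot : w.asIdeal.under (𝓞 K) ≠ ⊥ := Ideal.IsIntegral.comap_ne_bot _ w.ne_bot
  by_cases hw : 2 * D ∈ w.asIdeal.under (𝓞 K)
  · let v : HeightOneSpectrum (𝓞 K) := ⟨w.asIdeal.under (𝓞 K), inferInstance, hbot⟩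
    exact even_of_norm_sq (v := v) hodd (hbad v hw) Ideal.map_comap_le ht hNt
  · obtain ⟨W, hW⟩ := exists_over (L2 := L2) w
    have hnot : algebraMap (𝓞 L) (𝓞 L2) (algebraMap (𝓞 K) (𝓞 L) (2 * D)) ∉ W.asIdeal := by
      intro h1
      apply hw
      change algebraMap (𝓞 K) (𝓞 L) (2 * D) ∈ w.asIdeal
      rw [hW.over]
      exact h1
    rw [map_mul, map_mul, map_ofNat, map_ofNat] at hnot
    have h2 : (2 : 𝓞 L2) ∉ W.asIdeal := fun h => hnot (Ideal.mul_mem_right _ _ h)
    have hD : algebraMap (𝓞 L) (𝓞 L2) (algebraMap (𝓞 K) (𝓞 L) D) ∉ W.asIdeal :=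
      fun h => hnot (Ideal.mul_mem_left _ _ h)
    have v2 : W.valuation L2 2 = 1 := by
      have := (W.valuation_eq_one_iff_notMem (K := L2)).mpr h2
      rwa [map_ofNat] at this
    have vD : W.valuation L2 (algebraMap L L2 (algebraMap K L D)) = 1 :=
      (W.valuation_eq_one_iff_notMem (K := L2)).mpr hD
    have hr := odd_ram (L := L) (w := w) (W := W) hδL2 hδL v2 vD
    have hVt : Even (log (W.valuation L2 (algebraMap L L2 t))) := by
      have h3 := hev W
      have vt := (Valuation.ne_zero_iff (W.valuation L2)).mpr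
        (show algebraMap L L2 t ≠ 0 by rw [Ne, map_eq_zero]; exact ht)
      have vz := (Valuation.ne_zero_iff (W.valuation L2)).mpr hz
      rw [hxt, map_mul, map_pow, log_mul vt (pow_ne_zero 2 vz), log_pow, nsmul_eq_mul] at h3
      have h4 := h3.sub (even_two_mul (log (W.valuation L2 z)))
      push_cast at h4
      rwa [add_sub_cancel_right] at h4
    rw [← HeightOneSpectrum.valuation_liesOver (K := L) L2 w W, log_pow, nsmul_eq_mul,
      Int.even_mul] at hVt
    rcases hVt with h3 | h3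
    · exfalso
      rw [Int.even_coe_nat] at h3
      exact (Nat.not_even_iff_odd.mpr hr) h3
    · exact h3

/-- The quadratic step for totally positive classes. -/
theorem noNewPositive_quad (hodd : Odd (Module.finrank K L)) {D : 𝓞 K} {δ : K2}
    (hδ : δ ^ 2 = algebraMap K K2 D) (hδ' : ∀ r : K, algebraMap K K2 r ≠ δ)
    (hbad : ∀ v : HeightOneSpectrum (𝓞 K), 2 * D ∈ v.asIdeal → UniqueOver K L v.asIdeal)
    (hext : ∀ φ : L →+* ℝ, ∃ ψ : L2 →+* ℝ, ∀ y, ψ (algebraMap L L2 y) = φ y)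
    (R1 : NoNewPositive K L) : NoNewPositive K2 L2 := by
  intro x hx hev hN hpos
  obtain ⟨s, hss, hNs, -⟩ := exists_invol (L := L) (L2 := L2)
  have hnx : Algebra.norm L x ≠ 0 := by rw [Ne, Algebra.norm_eq_zero_iff]; exact hx
  have hsq : IsSquare (Algebra.norm L x) := by
    refine R1 _ hnx (fun w => even_norm hx hev w) (norm_norm_sq (K2 := K2) hN) ?_
    intro φ
    obtain ⟨ψ, hψ⟩ := hext φ
    rw [← hψ, hNs, map_mul]
    exact mul_pos (hpos ψ) (hpos (ψ.comp (s : L2 →+* L2)))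
  obtain ⟨t, z, ht, hz, hxt, hNt, hevt⟩ := core hodd hδ hδ' hbad hx hev hN hsq
  obtain ⟨u, hu⟩ : IsSquare t := by
    refine R1 t ht hevt hNt ?_
    intro φ
    obtain ⟨ψ, hψ⟩ := hext φ
    have h1 := hpos ψ
    rw [hxt, map_mul, map_pow, hψ] at h1
    exact (pos_iff_pos_of_mul_pos h1).mpr (by
      have : ψ z ≠ 0 := by rw [Ne, map_eq_zero]; exact hz
      positivity)
  refine ⟨algebraMap L L2 u * z, ?_⟩
  rw [hxt, hu, map_mul]
  ring

/-- The quadratic step for unramified classes. -/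
theorem noNewUnramified_quad (hodd : Odd (Module.finrank K L)) {D : 𝓞 K} {δ : K2}
    (hδ : δ ^ 2 = algebraMap K K2 D) (hδ' : ∀ r : K, algebraMap K K2 r ≠ δ)
    (hbad : ∀ v : HeightOneSpectrum (𝓞 K), 2 * D ∈ v.asIdeal → UniqueOver K L v.asIdeal)
    (hunr : ∀ w : HeightOneSpectrum (𝓞 L2), (2 : 𝓞 L2) ∈ w.asIdeal →
      (2 : 𝓞 L2) ∉ w.asIdeal ^ 2)
    (R2 : NoNewUnramified K L) : NoNewUnramified K2 L2 := by
  intro x hx hev hN hloc
  obtain ⟨s, hss, hNs, -⟩ := exists_invol (L := L) (L2 := L2)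
  have hnx : Algebra.norm L x ≠ 0 := by rw [Ne, Algebra.norm_eq_zero_iff]; exact hx
  have hevn := fun w => even_norm (L := L) hx hev w
  have over2 : ∀ w : HeightOneSpectrum (𝓞 L), (2 : 𝓞 L) ∈ w.asIdeal →
      ∀ W : HeightOneSpectrum (𝓞 L2), W.asIdeal.LiesOver w.asIdeal → (2 : 𝓞 L2) ∈ W.asIdeal := by
    intro w hw W hW
    rw [hW.over] at hw
    have : algebraMap (𝓞 L) (𝓞 L2) 2 ∈ W.asIdeal := hw
    rwa [map_ofNat] at this
  have hsq : IsSquare (Algebra.norm L x) := by
    refine R2 _ hnx hevn (norm_norm_sq (K2 := K2) hN) ?_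
    intro w hw
    obtain ⟨W, hW⟩ := exists_over (L2 := L2) w
    have h2W := over2 w hw W hW
    have hv2 := val_two_of_unram h2W (hunr W h2W)
    obtain ⟨W', hW', hmem⟩ := exists_conj s W
    have h2W' : (2 : 𝓞 L2) ∈ W'.asIdeal := by
      have h1 : algebraMap (𝓞 L) (𝓞 L2) 2 ∈ W.asIdeal := by rw [map_ofNat]; exact h2W
      have h3 := (hmem 2).mpr h1
      rwa [map_ofNat] at h3
    obtain ⟨t, m, ht, hm, h⟩ := hloc W h2W
    obtain ⟨t', m', ht', hm', h'⟩ := hloc W' h2W'
    have h4 : W.valuation L2 4 < 1 := by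
      have : (4 : L2) = 2 * 2 := by norm_num
      rw [this, map_mul, hv2, ← exp_add, ← exp_zero, exp_lt_exp]
      norm_num
    have hs4 : W'.valuation L2 4 = W.valuation L2 4 := by
      rw [← hW', map_ofNat]
    rw [← hW'] at hm'
    rw [hs4, ← hW', map_sub, map_mul, map_pow, map_pow] at h'
    have hst' : s t' ≠ 0 := by rw [Ne, map_eq_zero]; exact ht'
    have hxt : W.valuation L2 (x * t ^ 2) = 1 := by
      have : x * t ^ 2 = (x * t ^ 2 - m ^ 2) + m ^ 2 := by ring
      rw [this, Valuation.map_add_eq_of_lt_right, map_pow, hm, one_pow]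
      rw [map_pow, hm, one_pow]
      exact h.trans_lt h4
    refine descend_two (w := w) (W := W) hv2 hnx ?_ ⟨t * s t', m * s m', mul_ne_zero ht hst', ?_, ?_⟩
    · rw [hNs, map_mul, log_mul ((Valuation.ne_zero_iff _).mpr hx)
        ((Valuation.ne_zero_iff _).mpr (by rw [Ne, map_eq_zero]; exact hx))]
      exact (hev W).add (even_conj s hev W)
    · rw [map_mul, hm, hm', one_mul]
    · rw [hNs]
      have : x * s x * (t * s t') ^ 2 - (m * s m') ^ 2 =
          (x * t ^ 2) * (s x * s t' ^ 2 - s m' ^ 2) + (s m') ^ 2 * (x * t ^ 2 - m ^ 2) := by ring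
      rw [this]
      refine (Valuation.map_add _ _ _).trans (max_le ?_ ?_)
      · rw [map_mul, hxt, one_mul]; exact h'
      · rw [map_mul, map_pow, hm', one_pow, one_mul]; exact h
  obtain ⟨t, z, ht, hz, hxt, hNt, hevt⟩ := core hodd hδ hδ' hbad hx hev hN hsq
  obtain ⟨u, hu⟩ : IsSquare t := by
    refine R2 t ht hevt hNt ?_
    intro w hw
    obtain ⟨W, hW⟩ := exists_over (L2 := L2) w
    have h2W := over2 w hw W hW
    have hv2 := val_two_of_unram h2W (hunr W h2W)
    obtain ⟨t₁, m₁, ht₁, hm₁, h⟩ := hloc W h2W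
    refine descend_two (w := w) (W := W) hv2 ht ?_ ⟨z * t₁, m₁, mul_ne_zero hz ht₁, hm₁, ?_⟩
    · rw [← HeightOneSpectrum.valuation_liesOver (K := L) L2 w W, log_pow, nsmul_eq_mul]
      exact (hevt w).mul_left _
    · have : algebraMap L L2 t * (z * t₁) ^ 2 - m₁ ^ 2 = x * t₁ ^ 2 - m₁ ^ 2 := by
        rw [hxt]; ring
      rw [this]
      exact h
  refine ⟨algebraMap L L2 u * z, ?_⟩
  rw [hxt, hu, map_mul]
  ring

end

end H68QS
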