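import Pool.Agent.H68.QS.Asm
import Pool.Agent.H73.IS.KDf

/-!
# MP_78d38b: layers of the cyclotomic towers over `k`, final form
-/

set_option autoImplicit false
set_option linter.style.haveILetI false

open IsDedekindDomain NumberField WithZero Pool.Agent.H10 H5SW H73IS

namespace H68QS

theorem TwoPower.of_base {k : Type} [Field k] [NumberField k] (hk : TwoBase k) : TwoPower k :=
  hk.gal

/-- (3) Two is unramified in the layers. -/
theorem two_unramified_lay {p : ℕ} [Fact p.Prime] (hp2 : p ≠ 2) {k L : Type} [Field k]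
    [NumberField k] [Field L] [NumberField L] [Algebra k L] (hk : TwoBase k) (hL : IsLay p k L)
    (w : HeightOneSpectrum (𝓞 L)) (hw : (2 : 𝓞 L) ∈ w.asIdeal) : (2 : 𝓞 L) ∉ w.asIdeal ^ 2 := by
  obtain ⟨n, ⟨φ⟩⟩ := hL.2
  exact unr_cyc hp2 hk.unr φ w hw

/-- The degree of a compositum. -/
theorem finrank_comp {k L' L : Type} [Field k] [NumberField k] [Field L'] [NumberField L']
    [Field L] [NumberField L] [Algebra L' L] (f : k →+* L)
    (h : IntermediateField.adjoin ℚ (Set.range f ∪ Set.range (algebraMap L' L)) = ⊤) :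
    Module.finrank L' L ≤ Module.finrank ℚ k := by
  obtain ⟨θ, hθ⟩ := Field.exists_primitive_element ℚ k
  let φ : k →ₐ[ℚ] L := f.toRatAlgHom
  have hφ : ∀ x, φ x = f x := fun x => rfl
  have hint : IsIntegral L' (f θ) := Algebra.IsIntegral.isIntegral _
  have htop : IntermediateField.adjoin L' {f θ} = ⊤ := by
    rw [eq_top_iff]
    intro x _
    have hx : x ∈ IntermediateField.adjoin ℚ (Set.range f ∪ Set.range (algebraMap L' L)) := by
      rw [h]; trivial
    have hle : IntermediateField.adjoin ℚ (Set.range f ∪ Set.range (algebraMap L' L)) ≤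
        (IntermediateField.adjoin L' {f θ}).restrictScalars ℚ := by
      rw [IntermediateField.adjoin_le_iff]
      rintro y (⟨z, rfl⟩ | ⟨z, rfl⟩)
      · have hz : z ∈ IntermediateField.adjoin ℚ {θ} := by rw [hθ]; trivial
        have h1 : IntermediateField.adjoin ℚ {θ} ≤
            ((IntermediateField.adjoin L' {f θ}).restrictScalars ℚ).comap φ := by
          rw [IntermediateField.adjoin_le_iff]
          intro t ht
          rw [Set.mem_singleton_iff] at ht
          subst ht
          change f t ∈ IntermediateField.adjoin L' {f t}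
          exact IntermediateField.mem_adjoin_simple_self L' (f t)
        exact h1 hz
      · exact (IntermediateField.adjoin L' {f θ}).algebraMap_mem z
    exact hle hx
  have e1 : Module.finrank L' L = (minpoly L' (f θ)).natDegree := by
    rw [← IntermediateField.adjoin.finrank hint, htop, IntermediateField.finrank_top']
  have hintQ : IsIntegral ℚ θ := Algebra.IsIntegral.isIntegral _
  have e2 : Module.finrank ℚ k = (minpoly ℚ θ).natDegree := by
    rw [← IntermediateField.adjoin.finrank hintQ, hθ, IntermediateField.finrank_top']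
  rw [e1, e2]
  have hmonic : ((minpoly ℚ θ).map (algebraMap ℚ L')).Monic := (minpoly.monic hintQ).map _
  have hroot : Polynomial.aeval (f θ) ((minpoly ℚ θ).map (algebraMap ℚ L')) = 0 := by
    rw [Polynomial.aeval_map_algebraMap, ← hφ, Polynomial.aeval_algHom_apply, minpoly.aeval,
      map_zero]
  have h2 := Polynomial.natDegree_le_of_dvd (minpoly.dvd L' (f θ) hroot) hmonic.ne_zero
  rwa [Polynomial.natDegree_map] at h2

/-- (1) The members of the tower over `k` are extensions of bounded degree of the members of the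
tower over the rationals. -/
theorem lay_sub {p : ℕ} [Fact p.Prime] (hp2 : p ≠ 2) {k L : Type} [Field k] [NumberField k]
    [Field L] [NumberField L] [Algebra k L] (hk : TwoBase k) (hL : IsLay p k L) :
    ∃ (L' : Type) (_ : Field L') (_ : NumberField L') (_ : Algebra L' L), IsR p L' ∧
      Module.finrank L' L ≤ Module.finrank ℚ k := by
  obtain ⟨hreal, n, ⟨φ⟩⟩ := hL
  obtain ⟨K', L', _, _, _, _, _, ⟨C⟩, hR, -, -⟩ := decompose (K := k) hp2 φ hreal
    (TwoPower.of_base hk).finrank
  refine ⟨L', inferInstance, inferInstance, C.h.toAlgebra, hR, ?_⟩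
  letI := C.h.toAlgebra
  exact finrank_comp ((algebraMap k L).comp C.f) C.genL

/-- (2) The layers of the cyclotomic tower over `k`. -/
theorem layer_lay {p : ℕ} [Fact p.Prime] (hp2 : p ≠ 2) {k : Type} [Field k] [NumberField k]
    (hk : TwoBase k) {D : 𝓞 k} (hD : D ≠ 0) : ∃ N : ℕ,
    ∀ (K L : Type) [Field K] [NumberField K] [Field L] [NumberField L] [Algebra k K] [Algebra k L]
      [Algebra K L] [IsScalarTower k K L], IsLay p k L → (∃ i : ℕ, Module.finrank K L = p ^ i) →
      p ^ N ∣ Module.finrank ℚ K →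
      IsGalois K L ∧ NoNewPositive K L ∧ NoNewUnramified K L ∧
      (∀ v : HeightOneSpectrum (𝓞 K), algebraMap (𝓞 k) (𝓞 K) D ∈ v.asIdeal →
        UniqueOver K L v.asIdeal) ∧
      (∀ w : HeightOneSpectrum (𝓞 L), (2 : 𝓞 L) ∈ w.asIdeal → (2 : 𝓞 L) ∉ w.asIdeal ^ 2) ∧
      (¬ 3 ∣ Module.finrank K L ∨ ∀ v : HeightOneSpectrum (𝓞 K), (2 : 𝓞 K) ∈ v.asIdeal →
        ∃ c : 𝓞 K, c ^ 3 + c ^ 2 + 1 ∈ v.asIdeal) := by
  set nD : ℕ := Ideal.absNorm (Ideal.span {D}) with hnD
  have hnD0 : (nD : ℤ) ≠ 0 := by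
    rw [Ne, Nat.cast_eq_zero, hnD, Ideal.absNorm_eq_zero_iff, Ideal.span_singleton_eq_bot]
    exact hD
  obtain ⟨c, hc⟩ : D ∣ (nD : 𝓞 k) := by
    rw [← Ideal.mem_span_singleton]
    exact Ideal.absNorm_mem _
  obtain ⟨N, hN⟩ := layer_k hp2 (TwoPower.of_base hk) hk.unr hnD0
  refine ⟨N, ?_⟩
  intro K L _ _ _ _ _ _ _ _ hL hi hK
  obtain ⟨G, hunr⟩ := hN K L hL.2 hL.1 hi hK
  refine ⟨G.gal, G.R1, G.R2, ?_, hunr, G.three⟩
  intro v hv
  apply G.bad v
  rw [Int.cast_natCast]
  have : (nD : 𝓞 K) = algebraMap (𝓞 k) (𝓞 K) D * algebraMap (𝓞 k) (𝓞 K) c := by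
    rw [← map_mul, ← hc, map_natCast]
  rw [this]
  exact Ideal.mul_mem_right _ _ hv

end H68QS
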