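import Pool.Agent.H68.QS.Main
import Pool.Agent.H73.IS.Tow

/-!
# MP_78d38b: towers over a field of two-power type, definitions
-/

set_option autoImplicit false

open IsDedekindDomain NumberField WithZero Pool.Agent.H10 H5SW

namespace H68QS

/-- `k` is contained in a Galois extension of the rationals of two-power degree. -/
def TwoPower (k : Type) [Field k] [NumberField k] : Prop :=
  ∃ (F : Type) (_ : Field F) (_ : NumberField F), IsGalois ℚ F ∧
    (∃ r : ℕ, Module.finrank ℚ F = 2 ^ r) ∧ Nonempty (k →+* F)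

/-- Two is unramified in `k`. -/
def Unr2 (k : Type) [Field k] [NumberField k] : Prop :=
  ∀ w : HeightOneSpectrum (𝓞 k), (2 : 𝓞 k) ∈ w.asIdeal → (2 : 𝓞 k) ∉ w.asIdeal ^ 2

/-- The properties of a layer which are needed in the descent. -/
structure Good (M : ℤ) (K L : Type) [Field K] [NumberField K] [Field L] [NumberField L]
    [Algebra K L] : Prop where
  gal : IsGalois K L
  odd : Odd (Module.finrank K L)
  R1 : NoNewPositive K L
  R2 : NoNewUnramified K L
  bad : ∀ v : HeightOneSpectrum (𝓞 K), (M : 𝓞 K) ∈ v.asIdeal → UniqueOver K L v.asIdeal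
  three : ¬ 3 ∣ Module.finrank K L ∨ ∀ v : HeightOneSpectrum (𝓞 K), (2 : 𝓞 K) ∈ v.asIdeal →
    ∃ c : 𝓞 K, c ^ 3 + c ^ 2 + 1 ∈ v.asIdeal

/-- `K` is a compositum of `k` and `K'`, `L` is a compositum of `k` and `L'`, compatible with
`K' → L'` and `K → L`. -/
structure Comp (k K' L' K L : Type) [Field k] [Field K'] [Field L'] [Field K] [Field L]
    [Algebra K' L'] [Algebra K L] [Algebra ℚ K] [Algebra ℚ L] where
  f : k →+* K
  g : K' →+* K
  h : L' →+* L
  comm : ∀ x, h (algebraMap K' L' x) = algebraMap K L (g x)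
  genK : IntermediateField.adjoin ℚ (Set.range f ∪ Set.range g) = ⊤
  genL : IntermediateField.adjoin ℚ
    (Set.range (fun x => algebraMap K L (f x)) ∪ Set.range h) = ⊤

end H68QS
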