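import Pool.Agent.H68.QS.Df

/-!
ROW Idx (a subfield of index two).  PROOF.
Let `F` be Galois over the rationals with `[F : ℚ] = 2 ^ r` and `e : k →+* F` (a `ℚ`-algebra map, `RingHom.toRatAlgHom` or `e.toIntAlgHom` style; make it `φ : k →ₐ[ℚ] F`).
`G = Gal(F/ℚ)` is a 2-group with `Nat.card G = 2 ^ r` (`IsGalois.card_aut_eq_finrank`). Let `E = φ.fieldRange : IntermediateField ℚ F`, `H = E.fixingSubgroup`, `Nat.card H = [F : E] = 2 ^ s`
(`IsGalois.card_fixingSubgroup_eq_finrank`, divisor of a 2-power: `(Nat.dvd_prime_pow Nat.prime_two).mp`). As `[k : ℚ] = [E : ℚ] ≠ 1` we have `s < r`, so `2 ^ (s+1) ∣ Nat.card G` and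
`Sylow.exists_subgroup_card_pow_succ` gives `H' ≥ H` with `Nat.card H' = 2 ^ (s+1)`. `E' = IntermediateField.fixedField H' ≤ fixedField H = E` (`IsGalois.fixedField_fixingSubgroup`), and `[F : E'] = 2 ^ (s+1)`
(`IntermediateField.finrank_fixedField_eq_card`). So `[E : E'] = 2` in the sense of degrees over the rationals: `2 * [E' : ℚ] = [E : ℚ]`. Take `F' = E'.comap φ : IntermediateField ℚ k`; its image under `φ` is `E'` (as `E' ≤ φ.fieldRange`),
so `[F' : ℚ] = [E' : ℚ]` and `[F' : ℚ] * [k : F'] = [k : ℚ] = [E : ℚ] = 2 * [E' : ℚ]`, so `[k : F'] = 2`.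
The second theorem is composition of ring homomorphisms.
-/

set_option autoImplicit false

open IsDedekindDomain NumberField

namespace H68QS

theorem exists_index_two {k : Type} [Field k] [NumberField k] (h : TwoPower k)
    (hk : Module.finrank ℚ k ≠ 1) : ∃ F : IntermediateField ℚ k, Module.finrank F k = 2 := by
  obtain ⟨F, _, _, hG, ⟨r, hr⟩, ⟨e⟩⟩ := h
  obtain ⟨φ, _⟩ : ∃ φ : k →ₐ[ℚ] F, φ = e.toRatAlgHom := ⟨_, rfl⟩
  obtain ⟨E, hE⟩ : ∃ E : IntermediateField ℚ F, E = φ.fieldRange := ⟨_, rfl⟩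
  have hkE : Module.finrank ℚ k = Module.finrank ℚ E := by
    rw [hE]
    exact LinearEquiv.finrank_eq (AlgHom.equivFieldRange φ).toLinearEquiv
  have hmul : Module.finrank ℚ E * Module.finrank E F = 2 ^ r := by
    rw [Module.finrank_mul_finrank, hr]
  obtain ⟨s, hsr, hs⟩ := (Nat.dvd_prime_pow Nat.prime_two).1 (Dvd.intro_left _ hmul)
  have hs' : s < r := by
    rcases hsr.lt_or_eq with h1 | h1
    · exact h1
    · exfalso
      apply hk
      rw [hkE]
      rw [hs, h1] at hmul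
      exact Nat.eq_of_mul_eq_mul_right (pow_pos two_pos r) (by rw [hmul, one_mul])
  have hcard : Nat.card E.fixingSubgroup = 2 ^ s := by
    rw [IsGalois.card_fixingSubgroup_eq_finrank, hs]
  have hcardG : Nat.card (F ≃ₐ[ℚ] F) = 2 ^ r := by
    rw [IsGalois.card_aut_eq_finrank, hr]
  have hfact : Fact (Nat.Prime 2) := ⟨Nat.prime_two⟩
  have hfinG : Finite (F ≃ₐ[ℚ] F) := Nat.finite_of_card_ne_zero (by
    rw [hcardG]
    exact (pow_pos two_pos r).ne')
  obtain ⟨H', hH', hle⟩ := Sylow.exists_subgroup_card_pow_succ (p := 2) (n := s)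
    (G := F ≃ₐ[ℚ] F) (by
      rw [hcardG]
      exact pow_dvd_pow 2 hs') hcard
  obtain ⟨E', hE'⟩ : ∃ E' : IntermediateField ℚ F, E' = IntermediateField.fixedField H' :=
    ⟨_, rfl⟩
  have hfin' : Module.finrank E' F = 2 ^ (s + 1) := by
    rw [hE', IntermediateField.finrank_fixedField_eq_card, hH']
  have hEE : E' ≤ E := by
    rw [hE', ← IsGalois.fixedField_fixingSubgroup E]
    exact IntermediateField.fixedField_antitone hle
  refine ⟨IntermediateField.comap φ E', ?_⟩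
  rw [IntermediateField.finrank_comap, ← hE]
  have h2 := IntermediateField.relfinrank_mul_finrank_top hEE
  rw [hs, hfin', pow_succ, mul_comm (2 ^ s)] at h2
  exact Nat.eq_of_mul_eq_mul_right (pow_pos two_pos s) h2

theorem TwoPower.of_hom {k₁ k : Type} [Field k₁] [NumberField k₁] [Field k] [NumberField k]
    (h : TwoPower k) (e : k₁ →+* k) : TwoPower k₁ := by
  obtain ⟨F, i1, i2, hG, hr, ⟨e'⟩⟩ := h
  exact ⟨F, i1, i2, hG, hr, ⟨e'.comp e⟩⟩

/-- the degree of a field of two-power type is a power of two -/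
theorem TwoPower.finrank {k : Type} [Field k] [NumberField k] (h : TwoPower k) :
    ∃ r : ℕ, Module.finrank ℚ k = 2 ^ r := by
  obtain ⟨F, _, _, hG, ⟨r, hr⟩, ⟨e⟩⟩ := h
  obtain ⟨φ, _⟩ : ∃ φ : k →ₐ[ℚ] F, φ = e.toRatAlgHom := ⟨_, rfl⟩
  have hkE : Module.finrank ℚ k = Module.finrank ℚ φ.fieldRange :=
    LinearEquiv.finrank_eq (AlgHom.equivFieldRange φ).toLinearEquiv
  have hmul : Module.finrank ℚ φ.fieldRange * Module.finrank φ.fieldRange F = 2 ^ r := by
    rw [Module.finrank_mul_finrank, hr]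
  obtain ⟨s, _, hs⟩ := (Nat.dvd_prime_pow Nat.prime_two).1 (Dvd.intro _ hmul)
  exact ⟨s, by rw [hkE, hs]⟩

end H68QS
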